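import Mathlib

/-!
Tree-breadth and strong tree-breadth of graph powers. Helper for MP_3ffbec_co.
-/

set_option autoImplicit false

namespace Pool.Agent.SB97

open SimpleGraph

/-- The disk of radius `r` centred at `v` (distance to `v` at most `r`). -/
def disk {V : Type} (G : SimpleGraph V) (v : V) (r : ℕ) : Set V := {u | G.edist u v ≤ r}

/-- `(T, B)` is a tree-decomposition of `G`. -/
structure IsTD {V ι : Type} (G : SimpleGraph V) (T : SimpleGraph ι) (B : ι → Set V) : Prop where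
  isTree : T.IsTree
  vertex : ∀ v, ∃ t, v ∈ B t
  edge : ∀ u v, G.Adj u v → ∃ t, u ∈ B t ∧ v ∈ B t
  conn : ∀ v, (T.induce {t | v ∈ B t}).Connected

/-- `G` has a finite tree-decomposition in which every bag is contained in a disk of radius `r`. -/
def Weak {V : Type} (G : SimpleGraph V) (r : ℕ) : Prop :=
  ∃ (ι : Type) (_ : Finite ι) (T : SimpleGraph ι) (B : ι → Set V),
    IsTD G T B ∧ ∀ t, ∃ v : V, B t ⊆ disk G v r

/-- `G` has a finite tree-decomposition in which every bag is a disk of radius `r` centred at one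
of its vertices. -/
def Strong {V : Type} (G : SimpleGraph V) (r : ℕ) : Prop :=
  ∃ (ι : Type) (_ : Finite ι) (T : SimpleGraph ι) (B : ι → Set V),
    IsTD G T B ∧ ∀ t, ∃ v ∈ B t, B t = disk G v r

theorem Strong.weak {V : Type} {G : SimpleGraph V} {r : ℕ} (h : Strong G r) : Weak G r := by
  obtain ⟨ι, hι, T, B, h1, h2⟩ := h
  refine ⟨ι, hι, T, B, h1, fun t => ?_⟩
  obtain ⟨v, -, hv⟩ := h2 t
  exact ⟨v, hv.le⟩

/-- The `k`-th power of `G`: two different vertices are adjacent if their distance in `G` is at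
most `k`. -/
def pow {V : Type} (G : SimpleGraph V) (k : ℕ) : SimpleGraph V where
  Adj u v := u ≠ v ∧ G.edist u v ≤ k
  symm := ⟨fun u v h => ⟨h.1.symm, by rw [SimpleGraph.edist_comm]; exact h.2⟩⟩
  loopless := ⟨fun _ h => h.1 rfl⟩

variable {V : Type} {G : SimpleGraph V}

theorem mid {u v : V} {i j : ℕ} (h : G.edist u v ≤ (i + j : ℕ)) :
    ∃ w, G.edist u w ≤ i ∧ G.edist w v ≤ j := by
  have hne : G.edist u v ≠ ⊤ := ne_top_of_le_ne_top (ENat.natCast_ne_top _) h
  obtain ⟨p, hp⟩ := exists_walk_of_edist_ne_top hne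
  have hl : p.length ≤ i + j := by
    rw [← hp] at h
    exact_mod_cast h
  refine ⟨p.getVert i, ?_, ?_⟩
  · refine (p.take i).edist_le.trans ?_
    rw [Walk.take_length]
    exact_mod_cast Nat.min_le_left _ _
  · refine (p.drop i).edist_le.trans ?_
    rw [Walk.drop_length]
    have : p.length - i ≤ j := by omega
    exact_mod_cast this

theorem step {k : ℕ} {u v : V} (p : (pow G k).Walk u v) : G.edist u v ≤ (k * p.length : ℕ) := by
  induction p with
  | nil => simp
  | @cons a b c h q ih =>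
    have h1 : G.edist a b ≤ k := h.2
    refine (G.edist_triangle (v := b)).trans ?_
    rw [Walk.length_cons]
    have : ((k * (q.length + 1) : ℕ) : ℕ∞) = (k : ℕ∞) + ((k * q.length : ℕ) : ℕ∞) := by
      push_cast; ring
    rw [this]
    exact add_le_add h1 ih

theorem edist_pow {k r : ℕ} {u v : V} :
    (pow G k).edist u v ≤ r ↔ G.edist u v ≤ (k * r : ℕ) := by
  constructor
  · intro h
    have hne : (pow G k).edist u v ≠ ⊤ := ne_top_of_le_ne_top (ENat.natCast_ne_top _) h
    obtain ⟨p, hp⟩ := exists_walk_of_edist_ne_top hne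
    have hl : p.length ≤ r := by
      rw [← hp] at h
      exact_mod_cast h
    refine (step p).trans ?_
    exact_mod_cast Nat.mul_le_mul_left k hl
  · induction r generalizing u v with
    | zero =>
      intro h
      have : u = v := by simpa using h
      rw [this]; simp
    | succ r ih =>
      intro h
      rw [Nat.mul_succ] at h
      obtain ⟨w, h1, h2⟩ := mid h
      have h3 : (pow G k).edist w v ≤ 1 := by
        by_cases hwv : w = v
        · rw [hwv]; simp
        · exact (edist_eq_one_iff_adj.mpr (⟨hwv, h2⟩ : (pow G k).Adj w v)).le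
      refine ((pow G k).edist_triangle (v := w)).trans ?_
      push_cast
      exact add_le_add (ih h1) h3

theorem disk_pow (k r : ℕ) (v : V) : disk (pow G k) v r = disk G v (k * r) := by
  ext u
  exact edist_pow

theorem le_pow {k : ℕ} (hk : 1 ≤ k) {u v : V} (h : G.Adj u v) : (pow G k).Adj u v := by
  refine ⟨h.ne, ?_⟩
  rw [edist_eq_one_iff_adj.mpr h]
  exact_mod_cast hk

/-- the `j`-neighbourhood of a set -/
def thick (G : SimpleGraph V) (j : ℕ) (S : Set V) : Set V := {v | ∃ u ∈ S, G.edist u v ≤ j}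

theorem thick_disk (v : V) (r j : ℕ) : thick G j (disk G v r) = disk G v (r + j) := by
  ext u
  constructor
  · rintro ⟨w, h1, h2⟩
    have h1' : G.edist w v ≤ r := h1
    show G.edist u v ≤ ((r + j : ℕ) : ℕ∞)
    refine (G.edist_triangle (v := w)).trans ?_
    rw [edist_comm (u := u)]
    push_cast
    rw [add_comm]
    exact add_le_add h1' h2
  · intro h
    have h' : G.edist u v ≤ ((r + j : ℕ) : ℕ∞) := h
    rw [add_comm] at h'
    obtain ⟨w, h1, h2⟩ := mid h'
    exact ⟨w, h2, by rw [edist_comm]; exact h1⟩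

theorem thick_mono {j : ℕ} {S S' : Set V} (h : S ⊆ S') : thick G j S ⊆ thick G j S' :=
  fun _ ⟨u, hu, h2⟩ => ⟨u, h hu, h2⟩

variable {ι : Type} {T : SimpleGraph ι} {B : ι → Set V}

theorem reach_mono {A S : Set ι} (h : A ⊆ S) {a b : ι} (ha : a ∈ A) (hb : b ∈ A)
    (hr : (T.induce A).Reachable ⟨a, ha⟩ ⟨b, hb⟩) :
    (T.induce S).Reachable ⟨a, h ha⟩ ⟨b, h hb⟩ :=
  hr.map (SimpleGraph.induceHomOfLE T h).toHom

theorem IsTD.of_pow {k : ℕ} (hk : 1 ≤ k) (h : IsTD (pow G k) T B) : IsTD G T B :=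
  ⟨h.isTree, h.vertex, fun u v huv => h.edge u v (le_pow hk huv), h.conn⟩

theorem IsTD.thick {k j : ℕ} (h : IsTD G T B) (hkj : k ≤ 2 * j) :
    IsTD (pow G k) T (fun t => thick G j (B t)) := by
  refine ⟨h.isTree, fun v => ?_, fun u v huv => ?_, fun v => ?_⟩
  · obtain ⟨t, ht⟩ := h.vertex v
    exact ⟨t, v, ht, by simp⟩
  · have h1 : G.edist u v ≤ ((j + j : ℕ) : ℕ∞) := by
      refine huv.2.trans ?_
      exact_mod_cast (by omega : k ≤ j + j)
    obtain ⟨w, h2, h3⟩ := mid h1
    obtain ⟨t, ht⟩ := h.vertex w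
    exact ⟨t, ⟨w, ht, by rw [edist_comm]; exact h2⟩, ⟨w, ht, h3⟩⟩
  · obtain ⟨t0, ht0⟩ := h.vertex v
    have hself : v ∈ Pool.Agent.SB97.thick G j (B t0) := ⟨v, ht0, by simp⟩
    have key : ∀ n : ℕ, n ≤ j → ∀ u, G.edist u v ≤ n → ∀ t, (hut : u ∈ B t) →
        ∀ (hS : v ∈ Pool.Agent.SB97.thick G j (B t)),
        (T.induce {t | v ∈ Pool.Agent.SB97.thick G j (B t)}).Reachable ⟨t, hS⟩ ⟨t0, hself⟩ := by
      intro n
      induction n with
      | zero =>
        intro _ u hu t hut hS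
        have huv : u = v := by simpa using hu
        subst huv
        have hsub : {t | u ∈ B t} ⊆ {t | u ∈ Pool.Agent.SB97.thick G j (B t)} :=
          fun s hs => ⟨u, hs, by simp⟩
        exact reach_mono (T := T) hsub hut ht0 ((h.conn u).preconnected _ _)
      | succ n ih =>
        intro hn u hu t hut hS
        have hu' : G.edist u v ≤ ((1 + n : ℕ) : ℕ∞) := by rw [add_comm]; exact hu
        obtain ⟨w, h1, h2⟩ := mid hu'
        have hs : ∃ s, u ∈ B s ∧ w ∈ B s := by
          by_cases huw : u = w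
          · exact ⟨t, hut, huw ▸ hut⟩
          · refine h.edge u w ?_
            rw [← edist_eq_one_iff_adj]
            refine le_antisymm (by exact_mod_cast h1) ?_
            exact Order.one_le_iff_pos.mpr (edist_pos_of_ne huw)
        obtain ⟨s, hs1, hs2⟩ := hs
        have hj : G.edist u v ≤ j := hu.trans (by exact_mod_cast hn)
        have hj2 : G.edist w v ≤ j := h2.trans (by exact_mod_cast (by omega : n ≤ j))
        have hsub : {t | u ∈ B t} ⊆ {t | v ∈ Pool.Agent.SB97.thick G j (B t)} :=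
          fun s hs => ⟨u, hs, hj⟩
        have r1 := reach_mono (T := T) hsub hut hs1 ((h.conn u).preconnected _ _)
        have hS' : v ∈ Pool.Agent.SB97.thick G j (B s) := ⟨w, hs2, hj2⟩
        exact r1.trans (ih (by omega) w h2 s hs2 hS')
    have : Nonempty {t | v ∈ Pool.Agent.SB97.thick G j (B t)} := ⟨⟨t0, hself⟩⟩
    refine SimpleGraph.Connected.mk ?_
    rintro ⟨a, ha⟩ ⟨b, hb⟩
    obtain ⟨u, hu1, hu2⟩ := ha
    obtain ⟨w, hw1, hw2⟩ := hb
    exact (key j le_rfl u hu2 a hu1 ⟨u, hu1, hu2⟩).trans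
      (key j le_rfl w hw2 b hw1 ⟨w, hw1, hw2⟩).symm

theorem Strong.pow {r j k q : ℕ} (h : Strong G r) (h1 : r + j = k * q) (h2 : k ≤ 2 * j) :
    Strong (pow G k) q := by
  obtain ⟨ι, hι, T, B, hd, hB⟩ := h
  refine ⟨ι, hι, T, _, hd.thick h2, fun t => ?_⟩
  obtain ⟨v, hv, hv2⟩ := hB t
  refine ⟨v, ⟨v, hv, by simp⟩, ?_⟩
  rw [disk_pow, ← h1, ← thick_disk, ← hv2]

theorem Weak.pow {r j k q : ℕ} (h : Weak G r) (h1 : r + j ≤ k * q) (h2 : k ≤ 2 * j) :
    Weak (pow G k) q := by
  obtain ⟨ι, hι, T, B, hd, hB⟩ := h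
  refine ⟨ι, hι, T, _, hd.thick h2, fun t => ?_⟩
  obtain ⟨v, hv⟩ := hB t
  refine ⟨v, ?_⟩
  rw [disk_pow]
  refine (thick_mono hv).trans ?_
  rw [thick_disk]
  intro u hu
  have hu' : G.edist u v ≤ ((r + j : ℕ) : ℕ∞) := hu
  exact hu'.trans (by exact_mod_cast h1)

theorem Strong.of_pow {k q : ℕ} (hk : 1 ≤ k) (h : Strong (Pool.Agent.SB97.pow G k) q) :
    Strong G (k * q) := by
  obtain ⟨ι, hι, T, B, hd, hB⟩ := h
  refine ⟨ι, hι, T, B, hd.of_pow hk, fun t => ?_⟩
  obtain ⟨v, hv, hv2⟩ := hB t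
  exact ⟨v, hv, by rw [hv2, disk_pow]⟩

theorem Weak.of_pow {k q : ℕ} (hk : 1 ≤ k) (h : Weak (Pool.Agent.SB97.pow G k) q) :
    Weak G (k * q) := by
  obtain ⟨ι, hι, T, B, hd, hB⟩ := h
  refine ⟨ι, hι, T, B, hd.of_pow hk, fun t => ?_⟩
  obtain ⟨v, hv2⟩ := hB t
  exact ⟨v, by rw [← disk_pow]; exact hv2⟩

theorem pow_connected {k : ℕ} (hk : 1 ≤ k) (h : G.Connected) :
    (Pool.Agent.SB97.pow G k).Connected :=
  h.mono (fun _ _ huv => le_pow hk huv)

/-- From a graph of tree-breadth `1` and large strong tree-breadth `s` one gets, by a power, a graph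
of tree-breadth `1` and strong tree-breadth exactly `b`. -/
theorem exact {s b : ℕ} (hb : 1 ≤ b) (hs : 2 * b ^ 2 < s)
    (hw : IsLeast {r | Weak G r} 1) (hst : IsLeast {r | Strong G r} s) :
    ∃ k, 1 ≤ k ∧ IsLeast {r | Weak (Pool.Agent.SB97.pow G k) r} 1 ∧
      IsLeast {r | Strong (Pool.Agent.SB97.pow G k) r} b := by
  obtain ⟨k, j, hk2, hj, hkj, hlt⟩ : ∃ k j : ℕ, 2 ≤ k ∧ s + j = k * b ∧ k ≤ 2 * j ∧
      k * (b - 1) < s := by
    rcases Nat.lt_or_ge b 2 with h | h
    · have hb1 : b = 1 := by omega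
      subst hb1
      exact ⟨2 * s, s, by omega, by ring, le_rfl, by simp; omega⟩
    · obtain ⟨c, rfl⟩ : ∃ c, b = c + 1 := ⟨b - 1, by omega⟩
      have hc : 1 ≤ c := by omega
      set k := (s - 1) / c with hk
      have h1 : c * k ≤ s - 1 := Nat.mul_div_le _ _
      have h2 : s - 1 < c * (k + 1) := Nat.lt_mul_div_succ _ hc
      have h3 : 2 * (c + 1) ≤ k := by
        rw [hk, Nat.le_div_iff_mul_le hc, mul_assoc]
        have e : 2 * (c + 1) ^ 2 = 2 * ((c + 1) * c) + 2 * (c + 1) := by ring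
        omega
      have h4 : s ≤ c * k + c := by
        have : c * (k + 1) = c * k + c := by ring
        omega
      refine ⟨k, k * (c + 1) - s, by omega, ?_, ?_, ?_⟩
      · have : k * (c + 1) = c * k + k := by ring
        omega
      · have : k * (c + 1) = c * k + k := by ring
        omega
      · have : k * (c + 1 - 1) = c * k := by rw [Nat.add_sub_cancel]; ring
        omega
  refine ⟨k, by omega, ⟨?_, ?_⟩, ⟨?_, ?_⟩⟩
  · exact Weak.pow (j := (k + 1) / 2) hw.1 (by omega) (by omega)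
  · intro r hr
    have h1 : Weak G (k * r) := Weak.of_pow (by omega) hr
    have h2 : 1 ≤ k * r := hw.2 h1
    rcases Nat.eq_zero_or_pos r with h | h
    · rw [h] at h2; simp at h2
    · exact h
  · exact Strong.pow hst.1 hj hkj
  · intro r hr
    have h1 : Strong G (k * r) := Strong.of_pow (by omega) hr
    have h2 : s ≤ k * r := hst.2 h1
    by_contra hlt2
    have h3 : r ≤ b - 1 := by omega
    have := Nat.mul_le_mul_left k h3
    omega

end Pool.Agent.SB97
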