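import Pool.Agent.SB97.A
import Pool.Graph.R_pool_sql_team_seeded_64922ed1.X63.TBDefs

/-!
The Helly property of subtrees, and the cycle with `4 a` vertices: its tree-breadth is `a` and it
has a strong decomposition for every radius at least `a`. Helper for MP_3ffbec_co.
-/

set_option autoImplicit false

namespace Pool.Agent.SB97

open SimpleGraph

variable {ι : Type} {T : SimpleGraph ι}

theorem walk_supp {S : Set ι} {a b : ι} (p : T.Walk a b) (hp : ∀ x ∈ p.support, x ∈ S)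
    (ha : a ∈ S) (hb : b ∈ S) : (T.induce S).Reachable ⟨a, ha⟩ ⟨b, hb⟩ := by
  induction p with
  | nil => exact Reachable.refl _
  | @cons a c b h q ih =>
    have hc : c ∈ S := hp c (by simp)
    have h1 : (T.induce S).Adj ⟨a, ha⟩ ⟨c, hc⟩ := h
    exact h1.reachable.trans (ih (fun x hx => hp x (by simp [hx])) hc hb)

theorem inter_pre (hT : T.IsAcyclic) {A B : Set ι} (hA : (T.induce A).Preconnected)
    (hB : (T.induce B).Preconnected) : (T.induce (A ∩ B)).Preconnected := by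
  classical
  rintro ⟨a, ha⟩ ⟨b, hb⟩
  obtain ⟨p, hp⟩ := X63.TB.walk_in hA ha.1 hb.1
  obtain ⟨q, hq⟩ := X63.TB.walk_in hB ha.2 hb.2
  have huniq : p.toPath = q.toPath := (hT.subsingleton_path _ _).elim _ _
  have h : ∀ x ∈ (p.toPath : T.Walk a b).support, x ∈ A ∩ B := by
    intro x hx
    refine ⟨hp x (Walk.support_toPath_subset_support p hx), ?_⟩
    rw [huniq] at hx
    exact hq x (Walk.support_toPath_subset_support q hx)
  exact walk_supp _ h ha hb

theorem helly (hT : T.IsAcyclic) {κ : Type} (F : Finset κ) (hF : F.Nonempty) :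
    ∀ S : κ → Set ι, (∀ x ∈ F, (T.induce (S x)).Preconnected) →
      (∀ x ∈ F, ∀ y ∈ F, (S x ∩ S y).Nonempty) → ∃ t, ∀ x ∈ F, t ∈ S x := by
  classical
  induction hF using Finset.Nonempty.cons_induction with
  | singleton a =>
    intro S _ h2
    obtain ⟨t, ht⟩ := h2 a (by simp) a (by simp)
    exact ⟨t, fun x hx => by rw [Finset.mem_singleton] at hx; rw [hx]; exact ht.1⟩
  | cons a F ha hF ih =>
    intro S h1 h2
    have hF1 : ∀ x ∈ F, x ∈ Finset.cons a F ha := fun x hx => Finset.mem_cons_of_mem hx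
    have ha1 : a ∈ Finset.cons a F ha := Finset.mem_cons_self _ _
    obtain ⟨t, ht⟩ := ih (fun x => S x ∩ S a)
      (fun x hx => inter_pre hT (h1 x (hF1 x hx)) (h1 a ha1)) (by
        intro x hx y hy
        obtain ⟨u, hu⟩ := h2 x (hF1 x hx) y (hF1 y hy)
        obtain ⟨v, hv⟩ := h2 y (hF1 y hy) a ha1
        obtain ⟨w, hw⟩ := h2 a ha1 x (hF1 x hx)
        obtain ⟨t, t1, t2, t3⟩ := X63.TB.helly3 hT (h1 x (hF1 x hx)) (h1 y (hF1 y hy)) (h1 a ha1)
          hu.1 hu.2 hv.1 hv.2 hw.1 hw.2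
        exact ⟨t, ⟨t1, t3⟩, ⟨t2, t3⟩⟩)
    refine ⟨t, fun x hx => ?_⟩
    rcases Finset.mem_cons.1 hx with rfl | hx
    · obtain ⟨y, hy⟩ := hF
      exact (ht y hy).2
    · exact (ht x hx).1

/-- The cycle on `ZMod n`. -/
def cyc (n : ℕ) : SimpleGraph (ZMod n) where
  Adj u v := u ≠ v ∧ (v = u + 1 ∨ u = v + 1)
  symm := ⟨fun _ _ h => ⟨h.1.symm, h.2.symm⟩⟩
  loopless := ⟨fun _ h => h.1 rfl⟩

theorem cyc_add (n : ℕ) (x : ZMod n) (m : ℕ) : (cyc n).edist x (x + m) ≤ m := by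
  induction m with
  | zero => simp
  | succ m ih =>
    refine ((cyc n).edist_triangle (v := x + m)).trans ?_
    push_cast
    refine add_le_add ih ?_
    by_cases h : x + m = x + (m + 1)
    · rw [← h]; simp
    · exact (edist_eq_one_iff_adj.mpr (⟨h, Or.inl (by ring)⟩ : (cyc n).Adj _ _)).le

theorem cyc_walk {n : ℕ} {u v : ZMod n} (p : (cyc n).Walk u v) :
    ∃ z : ℤ, |z| ≤ p.length ∧ u = v + z := by
  induction p with
  | nil => exact ⟨0, by simp, by simp⟩
  | @cons a b c h q ih =>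
    obtain ⟨z, hz, hz2⟩ := ih
    rw [Walk.length_cons]
    rcases h.2 with h2 | h2
    · refine ⟨z - 1, ?_, ?_⟩
      · push_cast
        exact (abs_sub _ _).trans (by simpa using hz)
      · have : a = b - 1 := by rw [h2]; ring
        rw [this, hz2]; push_cast; ring
    · refine ⟨z + 1, ?_, ?_⟩
      · push_cast
        exact (abs_add_le _ _).trans (by simpa using hz)
      · rw [h2, hz2]; push_cast; ring

theorem cyc_disk {n : ℕ} {u v : ZMod n} {r : ℕ} (h : u ∈ disk (cyc n) v r) :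
    ∃ z : ℤ, |z| ≤ r ∧ u = v + z := by
  have h' : (cyc n).edist u v ≤ r := h
  have hne : (cyc n).edist u v ≠ ⊤ := ne_top_of_le_ne_top (ENat.natCast_ne_top _) h'
  obtain ⟨p, hp⟩ := exists_walk_of_edist_ne_top hne
  have hl : p.length ≤ r := by
    rw [← hp] at h'
    exact_mod_cast h'
  obtain ⟨z, hz, hz2⟩ := cyc_walk p
  exact ⟨z, hz.trans (by exact_mod_cast hl), hz2⟩

theorem top_induce_connected {κ : Type} {A : Set κ} (hA : A.Nonempty) :
    ((⊤ : SimpleGraph κ).induce A).Connected := by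
  obtain ⟨a, ha⟩ := hA
  have : Nonempty A := ⟨⟨a, ha⟩⟩
  refine SimpleGraph.Connected.mk ?_
  rintro ⟨x, hx⟩ ⟨y, hy⟩
  by_cases h : x = y
  · subst h; exact Reachable.refl _
  · exact Adj.reachable (show (⊤ : SimpleGraph κ).Adj x y from h)

theorem bool_isTree : (⊤ : SimpleGraph Bool).IsTree :=
  ⟨connected_top, IsAcyclic.of_card_le_two (by simp [ENat.card_eq_coe_fintype_card])⟩

/-- the two centres `0` and `2 a` -/
def cc (a : ℕ) (t : Bool) : ZMod (4 * a) := if t then ((2 * a : ℕ) : ZMod (4 * a)) else 0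

theorem cyc_edge {a r : ℕ} (ha : 1 ≤ a) (hr : a ≤ r) (u : ZMod (4 * a)) :
    ∃ t, u ∈ disk (cyc (4 * a)) (cc a t) r ∧ u + 1 ∈ disk (cyc (4 * a)) (cc a t) r := by
  have : NeZero (4 * a) := ⟨by omega⟩
  have h4 : ((4 * a : ℕ) : ZMod (4 * a)) = 0 := ZMod.natCast_self _
  have n0 : ∀ i : ℕ, i ≤ 4 * a → (i ≤ a ∨ 3 * a ≤ i) →
      (i : ZMod (4 * a)) ∈ disk (cyc (4 * a)) 0 r := by
    intro i hi h
    show (cyc (4 * a)).edist (i : ZMod (4 * a)) 0 ≤ r
    rcases h with h | h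
    · rw [edist_comm]
      have := cyc_add (4 * a) 0 i
      rw [zero_add] at this
      exact this.trans (by exact_mod_cast h.trans hr)
    · have := cyc_add (4 * a) (i : ZMod (4 * a)) (4 * a - i)
      rw [← Nat.cast_add, Nat.add_sub_cancel' hi, h4] at this
      exact this.trans (by exact_mod_cast (by omega : 4 * a - i ≤ r))
  have n2 : ∀ i : ℕ, a ≤ i → i ≤ 3 * a →
      (i : ZMod (4 * a)) ∈ disk (cyc (4 * a)) ((2 * a : ℕ) : ZMod (4 * a)) r := by
    intro i h1 h2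
    show (cyc (4 * a)).edist (i : ZMod (4 * a)) _ ≤ r
    rcases le_total i (2 * a) with h | h
    · have := cyc_add (4 * a) (i : ZMod (4 * a)) (2 * a - i)
      rw [← Nat.cast_add, Nat.add_sub_cancel' h] at this
      exact this.trans (by exact_mod_cast (by omega : 2 * a - i ≤ r))
    · rw [edist_comm]
      have := cyc_add (4 * a) ((2 * a : ℕ) : ZMod (4 * a)) (i - 2 * a)
      rw [← Nat.cast_add, Nat.add_sub_cancel' h] at this
      exact this.trans (by exact_mod_cast (by omega : i - 2 * a ≤ r))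
  obtain ⟨i, hi, rfl⟩ : ∃ i : ℕ, i < 4 * a ∧ u = i :=
    ⟨u.val, ZMod.val_lt u, (ZMod.natCast_zmod_val u).symm⟩
  have e : ((i : ZMod (4 * a)) + 1) = ((i + 1 : ℕ) : ZMod (4 * a)) := by push_cast; rfl
  rw [e]
  rcases Nat.lt_or_ge i a with h | h
  · exact ⟨false, n0 i hi.le (Or.inl h.le), n0 (i + 1) hi (Or.inl h)⟩
  · rcases Nat.lt_or_ge i (3 * a) with h' | h'
    · exact ⟨true, n2 i h h'.le, n2 (i + 1) (by omega) h'⟩
    · exact ⟨false, n0 i hi.le (Or.inr h'), n0 (i + 1) hi (Or.inr (by omega))⟩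

theorem cyc_adj_edge {a r : ℕ} (ha : 1 ≤ a) (hr : a ≤ r) {u v : ZMod (4 * a)}
    (huv : (cyc (4 * a)).Adj u v) :
    ∃ t, u ∈ disk (cyc (4 * a)) (cc a t) r ∧ v ∈ disk (cyc (4 * a)) (cc a t) r := by
  rcases huv.2 with h | h
  · obtain ⟨t, h1, h2⟩ := cyc_edge ha hr u
    exact ⟨t, h1, by rw [h]; exact h2⟩
  · obtain ⟨t, h1, h2⟩ := cyc_edge ha hr v
    exact ⟨t, by rw [h]; exact h2, h1⟩

theorem cyc_connected (a : ℕ) (ha : 1 ≤ a) : (cyc (4 * a)).Connected := by
  have : NeZero (4 * a) := ⟨by omega⟩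
  refine SimpleGraph.Connected.mk ?_
  intro u v
  have h := cyc_add (4 * a) u (v - u).val
  rw [ZMod.natCast_zmod_val, add_sub_cancel] at h
  exact reachable_of_edist_ne_top (ne_top_of_le_ne_top (ENat.natCast_ne_top _) h)

theorem cyc_strong {a r : ℕ} (ha : 1 ≤ a) (hr : a ≤ r) : Strong (cyc (4 * a)) r := by
  refine ⟨Bool, inferInstance, ⊤, fun t => disk (cyc (4 * a)) (cc a t) r,
    ⟨bool_isTree, fun v => ?_, fun u v huv => cyc_adj_edge ha hr huv, fun v => ?_⟩,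
    fun t => ⟨cc a t, ?_, rfl⟩⟩
  · obtain ⟨t, ht, -⟩ := cyc_edge ha hr v
    exact ⟨t, ht⟩
  · obtain ⟨t, ht, -⟩ := cyc_edge ha hr v
    exact top_induce_connected ⟨t, ht⟩
  · show (cyc (4 * a)).edist (cc a t) (cc a t) ≤ r
    simp

theorem cyc_not_weak {a r : ℕ} (hr : r < a) : ¬ Weak (cyc (4 * a)) r := by
  rintro ⟨ι, _, T, B, hd, hB⟩
  have : NeZero (4 * a) := ⟨by omega⟩
  have h4 : ((4 * a : ℕ) : ZMod (4 * a)) = 0 := ZMod.natCast_self _
  -- adjacent or equal vertices share a bag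
  have hshare : ∀ u : ZMod (4 * a), ∃ t, u ∈ B t ∧ u + 1 ∈ B t := by
    intro u
    by_cases h : u = u + 1
    · obtain ⟨t, ht⟩ := hd.vertex u
      exact ⟨t, ht, by rw [← h]; exact ht⟩
    · exact hd.edge u (u + 1) ⟨h, Or.inl rfl⟩
  let S : ZMod (4 * a) → Set ι := fun x => {t | ∃ i : ℕ, i < 2 * a ∧ x + i ∈ B t}
  have hpre : ∀ x ∈ (Finset.univ : Finset (ZMod (4 * a))), (T.induce (S x)).Preconnected := by
    intro x _
    obtain ⟨t0, ht0⟩ := hd.vertex x
    have ht0' : t0 ∈ S x := ⟨0, by omega, by simpa using ht0⟩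
    have key : ∀ i : ℕ, i < 2 * a → ∀ t, x + i ∈ B t → ∀ hS : t ∈ S x,
        (T.induce (S x)).Reachable ⟨t, hS⟩ ⟨t0, ht0'⟩ := by
      intro i
      induction i with
      | zero =>
        intro hi t ht hS
        have ht' : x ∈ B t := by simpa using ht
        have hsub : {t | x ∈ B t} ⊆ S x := fun s hs => ⟨0, hi, by simpa using hs⟩
        exact reach_mono (T := T) hsub ht' ht0 ((hd.conn x).preconnected _ _)
      | succ i ih =>
        intro hi t ht hS
        obtain ⟨s, hs1, hs2⟩ := hshare (x + i)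
        have e : x + ((i + 1 : ℕ) : ZMod (4 * a)) = x + i + 1 := by push_cast; ring
        have hsub : {t | x + i + 1 ∈ B t} ⊆ S x := fun s hs => ⟨i + 1, hi, by rw [e]; exact hs⟩
        rw [e] at ht
        have r1 := reach_mono (T := T) hsub ht hs2 ((hd.conn (x + i + 1)).preconnected _ _)
        exact r1.trans (ih (by omega) s hs1 ⟨i, by omega, hs1⟩)
    rintro ⟨p, hp⟩ ⟨q, hq⟩
    obtain ⟨i, hi, hi2⟩ := hp
    obtain ⟨j, hj, hj2⟩ := hq
    exact (key i hi p hi2 ⟨i, hi, hi2⟩).trans (key j hj q hj2 ⟨j, hj, hj2⟩).symm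
  have hmeet : ∀ x ∈ (Finset.univ : Finset (ZMod (4 * a))), ∀ y ∈ (Finset.univ : Finset _),
      (S x ∩ S y).Nonempty := by
    intro x _ y _
    obtain ⟨m, hm, hmy⟩ : ∃ m : ℕ, m < 4 * a ∧ y = x + m :=
      ⟨(y - x).val, ZMod.val_lt _, by rw [ZMod.natCast_zmod_val]; ring⟩
    rcases lt_trichotomy m (2 * a) with h | h | h
    · obtain ⟨t, ht⟩ := hd.vertex y
      exact ⟨t, ⟨m, h, by rw [← hmy]; exact ht⟩, ⟨0, by omega, by simpa using ht⟩⟩
    · obtain ⟨t, h1, h2⟩ := hshare (x + ((2 * a - 1 : ℕ) : ZMod (4 * a)))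
      refine ⟨t, ⟨2 * a - 1, by omega, h1⟩, ⟨0, by omega, ?_⟩⟩
      have e0 : ((2 * a : ℕ) : ZMod (4 * a)) = ((2 * a - 1 : ℕ) : ZMod (4 * a)) + 1 := by
        rw [← Nat.cast_succ]
        congr 1
        omega
      have e : y + ((0 : ℕ) : ZMod (4 * a)) = x + ((2 * a - 1 : ℕ) : ZMod (4 * a)) + 1 := by
        rw [hmy, h, e0, Nat.cast_zero, add_zero, add_assoc]
      rw [e]
      exact h2
    · obtain ⟨t, ht⟩ := hd.vertex x
      refine ⟨t, ⟨0, by omega, by simpa using ht⟩, ⟨4 * a - m, by omega, ?_⟩⟩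
      have e : y + ((4 * a - m : ℕ) : ZMod (4 * a)) = x := by
        rw [hmy, add_assoc, ← Nat.cast_add, Nat.add_sub_cancel' hm.le, h4, add_zero]
      rw [e]
      exact ht
  obtain ⟨t, ht⟩ := helly hd.isTree.isAcyclic Finset.univ ⟨0, Finset.mem_univ _⟩ S hpre hmeet
  obtain ⟨c, hc⟩ := hB t
  obtain ⟨i, hi, hi2⟩ := ht (c + a) (Finset.mem_univ _)
  obtain ⟨z, hz, hz2⟩ := cyc_disk (hc hi2)
  have e1 : (((a : ℤ) + i - z : ℤ) : ZMod (4 * a)) = 0 := by
    push_cast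
    have : c + (a : ZMod (4 * a)) + (i : ZMod (4 * a)) = c + (z : ZMod (4 * a)) := hz2
    have h2 : (a : ZMod (4 * a)) + (i : ZMod (4 * a)) = (z : ZMod (4 * a)) := by
      rw [add_assoc] at this
      exact add_left_cancel this
    rw [h2]; ring
  rw [ZMod.intCast_zmod_eq_zero_iff_dvd] at e1
  obtain ⟨d, hd2⟩ := e1
  rw [abs_le] at hz
  have hd3 : 0 < d := by
    by_contra hcon
    push Not at hcon
    have : ((4 * a : ℕ) : ℤ) * d ≤ 0 := mul_nonpos_of_nonneg_of_nonpos (by positivity) hcon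
    omega
  have : ((4 * a : ℕ) : ℤ) * 1 ≤ ((4 * a : ℕ) : ℤ) * d :=
    mul_le_mul_of_nonneg_left (by omega) (by positivity)
  push_cast at *
  omega

end Pool.Agent.SB97
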