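import Pool.Agent.SB97.A

/-!
Tree-decompositions of disjoint unions. Helper for MP_3ffbec_co.
-/

set_option autoImplicit false

namespace Pool.Agent.SB97

open SimpleGraph

theorem isTree_join {ι₁ ι₂ : Type} [Finite ι₁] [Finite ι₂] {T₁ : SimpleGraph ι₁}
    {T₂ : SimpleGraph ι₂} (h1 : T₁.IsTree) (h2 : T₂.IsTree) (s₁ : ι₁) (s₂ : ι₂) :
    (T₁.sum T₂ ⊔ edge (Sum.inl s₁) (Sum.inr s₂)).IsTree := by
  have hc : (T₁.sum T₂ ⊔ edge (Sum.inl s₁) (Sum.inr s₂)).Connected :=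
    h1.1.sum_sup_edge h2.1
  rw [isTree_iff_connected_and_card]
  refine ⟨hc, le_antisymm ?_ hc.card_vert_le_card_edgeSet_add_one⟩
  have c1 := (isTree_iff_connected_and_card.1 h1).2
  have c2 := (isTree_iff_connected_and_card.1 h2).2
  have c3 : Nat.card (T₁.sum T₂).edgeSet = Nat.card T₁.edgeSet + Nat.card T₂.edgeSet := by
    rw [Nat.card_congr edgeSetSumEquiv, Nat.card_sum]
  have c4 : Nat.card (edge (Sum.inl s₁ : ι₁ ⊕ ι₂) (Sum.inr s₂)).edgeSet ≤ 1 := by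
    rw [Nat.card_coe_set_eq, edgeSet_edge_of_ne (by simp)]
    simp
  have c5 : Nat.card (T₁.sum T₂ ⊔ edge (Sum.inl s₁) (Sum.inr s₂)).edgeSet ≤
      Nat.card (T₁.sum T₂).edgeSet +
        Nat.card (edge (Sum.inl s₁ : ι₁ ⊕ ι₂) (Sum.inr s₂)).edgeSet := by
    rw [Nat.card_coe_set_eq, Nat.card_coe_set_eq, Nat.card_coe_set_eq, edgeSet_sup]
    exact Set.ncard_union_le _ _
  rw [Nat.card_sum]
  omega

variable {V W : Type} {G : SimpleGraph V} {H : SimpleGraph W}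

theorem walk_inl : ∀ {x y : V ⊕ W} (p : (G ⊕g H).Walk x y) (a : V), x = Sum.inl a →
    ∃ b, y = Sum.inl b ∧ G.edist a b ≤ p.length := by
  intro x y p
  induction p with
  | nil => intro a h; exact ⟨a, h, by simp⟩
  | @cons x z y h q ih =>
    intro a hx
    subst hx
    rcases z with c | c
    · obtain ⟨b, hb, hb2⟩ := ih c rfl
      refine ⟨b, hb, (G.edist_triangle (v := c)).trans ?_⟩
      have h' : G.Adj a c := h
      have h1 : G.edist a c ≤ 1 := (edist_eq_one_iff_adj.mpr h').le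
      rw [Walk.length_cons]
      push_cast
      rw [add_comm]
      exact add_le_add hb2 h1
    · exact absurd h (by simp)

theorem walk_inr : ∀ {x y : V ⊕ W} (p : (G ⊕g H).Walk x y) (a : W), x = Sum.inr a →
    ∃ b, y = Sum.inr b ∧ H.edist a b ≤ p.length := by
  intro x y p
  induction p with
  | nil => intro a h; exact ⟨a, h, by simp⟩
  | @cons x z y h q ih =>
    intro a hx
    subst hx
    rcases z with c | c
    · exact absurd h (by simp)
    · obtain ⟨b, hb, hb2⟩ := ih c rfl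
      refine ⟨b, hb, (H.edist_triangle (v := c)).trans ?_⟩
      have h' : H.Adj a c := h
      have h1 : H.edist a c ≤ 1 := (edist_eq_one_iff_adj.mpr h').le
      rw [Walk.length_cons]
      push_cast
      rw [add_comm]
      exact add_le_add hb2 h1

theorem exists_walk {U : Type} {K : SimpleGraph U} {u v : U} {r : ℕ} (h : K.edist u v ≤ r) :
    ∃ p : K.Walk u v, p.length ≤ r := by
  have hne : K.edist u v ≠ ⊤ := ne_top_of_le_ne_top (ENat.natCast_ne_top _) h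
  obtain ⟨p, hp⟩ := exists_walk_of_edist_ne_top hne
  refine ⟨p, ?_⟩
  rw [← hp] at h
  exact_mod_cast h

theorem disk_inl (v : V) (r : ℕ) : disk (G ⊕g H) (Sum.inl v) r = Sum.inl '' disk G v r := by
  ext x
  constructor
  · intro hx
    have hx' : (G ⊕g H).edist x (Sum.inl v) ≤ r := hx
    rw [edist_comm] at hx'
    obtain ⟨p, hp⟩ := exists_walk hx'
    obtain ⟨b, rfl, hb⟩ := walk_inl p v rfl
    refine ⟨b, ?_, rfl⟩
    show G.edist b v ≤ r
    rw [edist_comm]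
    exact hb.trans (by exact_mod_cast hp)
  · rintro ⟨b, hb, rfl⟩
    have hb' : G.edist b v ≤ r := hb
    obtain ⟨p, hp⟩ := exists_walk hb'
    show (G ⊕g H).edist (Sum.inl b) (Sum.inl v) ≤ r
    refine ((p.map (Embedding.sumInl (G := G) (H := H)).toHom).edist_le).trans ?_
    rw [Walk.length_map]
    exact_mod_cast hp

theorem disk_inr (v : W) (r : ℕ) : disk (G ⊕g H) (Sum.inr v) r = Sum.inr '' disk H v r := by
  ext x
  constructor
  · intro hx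
    have hx' : (G ⊕g H).edist x (Sum.inr v) ≤ r := hx
    rw [edist_comm] at hx'
    obtain ⟨p, hp⟩ := exists_walk hx'
    obtain ⟨b, rfl, hb⟩ := walk_inr p v rfl
    refine ⟨b, ?_, rfl⟩
    show H.edist b v ≤ r
    rw [edist_comm]
    exact hb.trans (by exact_mod_cast hp)
  · rintro ⟨b, hb, rfl⟩
    have hb' : H.edist b v ≤ r := hb
    obtain ⟨p, hp⟩ := exists_walk hb'
    show (G ⊕g H).edist (Sum.inr b) (Sum.inr v) ≤ r
    refine ((p.map (Embedding.sumInr (G := G) (H := H)).toHom).edist_le).trans ?_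
    rw [Walk.length_map]
    exact_mod_cast hp

variable {ι ι₁ ι₂ : Type}

theorem conn_map {κ κ' : Type} {T : SimpleGraph κ} {T' : SimpleGraph κ'} {A : Set κ} {A' : Set κ'}
    (f : κ → κ') (hf : ∀ a b, T.Adj a b → T'.Adj (f a) (f b)) (hA : ∀ a ∈ A, f a ∈ A')
    (hsurj : ∀ b ∈ A', ∃ a ∈ A, f a = b) (h : (T.induce A).Connected) :
    (T'.induce A').Connected := by
  have hne : Nonempty A' := by
    obtain ⟨a⟩ := h.nonempty
    exact ⟨⟨f a.1, hA a.1 a.2⟩⟩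
  refine SimpleGraph.Connected.mk ?_
  rintro ⟨x, hx⟩ ⟨y, hy⟩
  obtain ⟨a, ha, rfl⟩ := hsurj x hx
  obtain ⟨b, hb, rfl⟩ := hsurj y hy
  let g : T.induce A →g T'.induce A' := ⟨fun a => ⟨f a.1, hA a.1 a.2⟩, fun {p q} hpq => hf _ _ hpq⟩
  exact (h.preconnected ⟨a, ha⟩ ⟨b, hb⟩).map g

theorem IsTD.join [Finite ι₁] [Finite ι₂] {T₁ : SimpleGraph ι₁} {T₂ : SimpleGraph ι₂}
    {B₁ : ι₁ → Set V} {B₂ : ι₂ → Set W} (h1 : IsTD G T₁ B₁) (h2 : IsTD H T₂ B₂) (s₁ : ι₁)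
    (s₂ : ι₂) :
    IsTD (G ⊕g H) (T₁.sum T₂ ⊔ SimpleGraph.edge (Sum.inl s₁) (Sum.inr s₂))
      (Sum.elim (fun t => Sum.inl '' B₁ t) (fun t => Sum.inr '' B₂ t)) := by
  refine ⟨isTree_join h1.isTree h2.isTree _ _, ?_, ?_, ?_⟩
  · rintro (v | v)
    · obtain ⟨t, ht⟩ := h1.vertex v
      exact ⟨Sum.inl t, v, ht, rfl⟩
    · obtain ⟨t, ht⟩ := h2.vertex v
      exact ⟨Sum.inr t, v, ht, rfl⟩
  · rintro (u | u) (v | v) huv
    · obtain ⟨t, ht, ht2⟩ := h1.edge u v huv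
      exact ⟨Sum.inl t, ⟨u, ht, rfl⟩, ⟨v, ht2, rfl⟩⟩
    · exact absurd huv (by simp)
    · exact absurd huv (by simp)
    · obtain ⟨t, ht, ht2⟩ := h2.edge u v huv
      exact ⟨Sum.inr t, ⟨u, ht, rfl⟩, ⟨v, ht2, rfl⟩⟩
  · rintro (v | v)
    · refine conn_map (A := {t | v ∈ B₁ t}) Sum.inl (fun a b hab => Or.inl hab) ?_ ?_ (h1.conn v)
      · intro a ha
        exact ⟨v, ha, rfl⟩
      · rintro (b | b) hb
        · obtain ⟨w, hw, hw2⟩ := hb
          cases hw2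
          exact ⟨b, hw, rfl⟩
        · obtain ⟨w, hw, hw2⟩ := hb
          cases hw2
    · refine conn_map (A := {t | v ∈ B₂ t}) Sum.inr (fun a b hab => Or.inl hab) ?_ ?_ (h2.conn v)
      · intro a ha
        exact ⟨v, ha, rfl⟩
      · rintro (b | b) hb
        · obtain ⟨w, hw, hw2⟩ := hb
          cases hw2
        · obtain ⟨w, hw, hw2⟩ := hb
          cases hw2
          exact ⟨b, hw, rfl⟩

theorem IsTD.right {T : SimpleGraph ι} {B : ι → Set (V ⊕ W)} (h : IsTD (G ⊕g H) T B) :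
    IsTD H T (fun t => Sum.inr ⁻¹' B t) :=
  ⟨h.isTree, fun _ => h.vertex _, fun _ _ huv => h.edge _ _ huv, fun _ => h.conn _⟩

theorem IsTD.left {T : SimpleGraph ι} {B : ι → Set (V ⊕ W)} (h : IsTD (G ⊕g H) T B) :
    IsTD G T (fun t => Sum.inl ⁻¹' B t) :=
  ⟨h.isTree, fun _ => h.vertex _, fun _ _ huv => h.edge _ _ huv, fun _ => h.conn _⟩

theorem IsTD.prune {T : SimpleGraph ι} {B : ι → Set V} (hG : G.Connected) (h : IsTD G T B) :
    IsTD G (T.induce {t | (B t).Nonempty}) (fun t => B t.1) := by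
  refine ⟨⟨?_, h.isTree.isAcyclic.induce _⟩, fun v => ?_, fun u v huv => ?_, fun v => ?_⟩
  · have key : ∀ {u w : V} (p : G.Walk u w) (a b : ι) (ha : u ∈ B a) (hb : w ∈ B b),
        (T.induce {t | (B t).Nonempty}).Reachable ⟨a, ⟨u, ha⟩⟩ ⟨b, ⟨w, hb⟩⟩ := by
      intro u w p
      induction p with
      | @nil u =>
        intro a b ha hb
        have hsub : {t | u ∈ B t} ⊆ {t | (B t).Nonempty} := fun s hs => ⟨u, hs⟩
        exact reach_mono (T := T) hsub ha hb ((h.conn u).preconnected _ _)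
      | @cons u z w huz q ih =>
        intro a b ha hb
        obtain ⟨s, hs1, hs2⟩ := h.edge u z huz
        have hsub : {t | u ∈ B t} ⊆ {t | (B t).Nonempty} := fun s hs => ⟨u, hs⟩
        exact (reach_mono (T := T) hsub ha hs1 ((h.conn u).preconnected _ _)).trans
          (ih s b hs2 hb)
    have hne : Nonempty {t | (B t).Nonempty} := by
      obtain ⟨v⟩ := hG.nonempty
      obtain ⟨t, ht⟩ := h.vertex v
      exact ⟨⟨t, v, ht⟩⟩
    refine SimpleGraph.Connected.mk ?_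
    rintro ⟨a, u, ha⟩ ⟨b, w, hb⟩
    obtain ⟨p⟩ := hG.preconnected u w
    exact key p a b ha hb
  · obtain ⟨t, ht⟩ := h.vertex v
    exact ⟨⟨t, v, ht⟩, ht⟩
  · obtain ⟨t, ht, ht2⟩ := h.edge u v huv
    exact ⟨⟨t, u, ht⟩, ht, ht2⟩
  · have hne : Nonempty {t : {t | (B t).Nonempty} | v ∈ B t.1} := by
      obtain ⟨t, ht⟩ := h.vertex v
      exact ⟨⟨⟨t, v, ht⟩, ht⟩⟩
    refine SimpleGraph.Connected.mk ?_
    rintro ⟨⟨a, ha'⟩, ha⟩ ⟨⟨b, hb'⟩, hb⟩
    let g : T.induce {t | v ∈ B t} →g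
        (T.induce {t | (B t).Nonempty}).induce {t : {t | (B t).Nonempty} | v ∈ B t.1} :=
      ⟨fun a => ⟨⟨a.1, v, a.2⟩, a.2⟩, fun {p q} hpq => hpq⟩
    exact ((h.conn v).preconnected ⟨a, ha⟩ ⟨b, hb⟩).map g

theorem Strong.join {r : ℕ} (h1 : Strong G r) (h2 : Strong H r) : Strong (G ⊕g H) r := by
  obtain ⟨ι₁, _, T₁, B₁, d1, e1⟩ := h1
  obtain ⟨ι₂, _, T₂, B₂, d2, e2⟩ := h2
  obtain ⟨s₁⟩ := d1.isTree.1.nonempty
  obtain ⟨s₂⟩ := d2.isTree.1.nonempty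
  refine ⟨ι₁ ⊕ ι₂, inferInstance, _, _, d1.join d2 s₁ s₂, ?_⟩
  rintro (t | t)
  · obtain ⟨v, hv, hv2⟩ := e1 t
    refine ⟨Sum.inl v, ⟨v, hv, rfl⟩, ?_⟩
    rw [disk_inl, ← hv2]
    rfl
  · obtain ⟨v, hv, hv2⟩ := e2 t
    refine ⟨Sum.inr v, ⟨v, hv, rfl⟩, ?_⟩
    rw [disk_inr, ← hv2]
    rfl

theorem Weak.join {r : ℕ} (h1 : Weak G r) (h2 : Weak H r) : Weak (G ⊕g H) r := by
  obtain ⟨ι₁, _, T₁, B₁, d1, e1⟩ := h1
  obtain ⟨ι₂, _, T₂, B₂, d2, e2⟩ := h2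
  obtain ⟨s₁⟩ := d1.isTree.1.nonempty
  obtain ⟨s₂⟩ := d2.isTree.1.nonempty
  refine ⟨ι₁ ⊕ ι₂, inferInstance, _, _, d1.join d2 s₁ s₂, ?_⟩
  rintro (t | t)
  · obtain ⟨v, hv2⟩ := e1 t
    refine ⟨Sum.inl v, ?_⟩
    rw [disk_inl]
    exact Set.image_mono hv2
  · obtain ⟨v, hv2⟩ := e2 t
    refine ⟨Sum.inr v, ?_⟩
    rw [disk_inr]
    exact Set.image_mono hv2

theorem Weak.right [Nonempty W] {r : ℕ} (h : Weak (G ⊕g H) r) : Weak H r := by
  obtain ⟨ι, _, T, B, d, e⟩ := h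
  refine ⟨ι, inferInstance, T, _, d.right, fun t => ?_⟩
  obtain ⟨v | v, hv⟩ := e t
  · refine ⟨Classical.arbitrary W, ?_⟩
    intro w hw
    have := hv hw
    rw [disk_inl] at this
    obtain ⟨_, _, h3⟩ := this
    cases h3
  · refine ⟨v, ?_⟩
    intro w hw
    have := hv hw
    rw [disk_inr] at this
    obtain ⟨_, h2, h3⟩ := this
    cases h3
    exact h2

theorem Strong.left (hG : G.Connected) {r : ℕ} (h : Strong (G ⊕g H) r) : Strong G r := by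
  obtain ⟨ι, _, T, B, d, e⟩ := h
  refine ⟨_, inferInstance, _, _, d.left.prune hG, ?_⟩
  rintro ⟨t, u, hu⟩
  obtain ⟨c | c, hc, hc2⟩ := e t
  · refine ⟨c, hc, ?_⟩
    show Sum.inl ⁻¹' B t = disk G c r
    rw [hc2, disk_inl]
    exact Set.preimage_image_eq _ Sum.inl_injective
  · exfalso
    have hu' : Sum.inl u ∈ B t := hu
    rw [hc2, disk_inr] at hu'
    obtain ⟨_, _, h3⟩ := hu'
    cases h3

end Pool.Agent.SB97
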