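import Pool.Agent.SB97.A
import Pool.Graph.R_pool_sql_team_seeded_64922ed1.X63.TBLower

/-!
The lower bound for the graph `X63.TB.G D L` of the library with variable radii: in the proof of
`X63.TB.lemmaA` and `X63.TB.no_strong` every centre gets an offset `o t`, so that the bags are disks
of radius `r - o t`. Helper for MP_3ffbec_co.
-/

set_option autoImplicit false

namespace Pool.Agent.SB97

open SimpleGraph X63.TB

theorem lemmaA {D L : ℕ} {ι : Type} {T : SimpleGraph ι} (hT : T.IsAcyclic) (c : ι → Vx D L) (o : ι → ℕ)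
    (r k : ℕ) (hk : k + 1 ≤ r) (hL : r ≤ L + 1)
    (hconn : ∀ x, (T.induce {t | o t + (G D L).dist x (c t) ≤ r}).Preconnected)
    (z : IV D) (hz : ∀ t, k ≤ o t + (G D L).dist (c t) (tv (up z))) :
    ∃ i, ∀ t, k + 1 ≤ o t + (G D L).dist (c t) (tv (ch z i)) := by
  by_contra hcon
  push Not at hcon
  choose τ hτ using hcon
  set K : ι → Fin 6 → Prop := fun t i => o t + (G D L).dist (c t) (tv (ch z i)) ≤ k with hK
  have hKτ : ∀ i, K (τ i) i := fun i => by
    have := hτ i
    show o (τ i) + (G D L).dist (c (τ i)) (tv (ch z i)) ≤ k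
    omega
  have hKa : ∀ t i, K t i → assoc z (c t) i := by
    intro t i hti
    by_contra hn
    unfold assoc at hn
    rw [not_or] at hn
    have h1 := cls (c t) z i hn.1 hn.2
    have h2 := hz t
    have h3 : o t + (G D L).dist (c t) (tv (ch z i)) ≤ k := hti
    omega
  have hh : r - k - 1 < L + 1 := by omega
  set U : Fin 6 → Fin 6 → Set ι := fun i j =>
    {t | o t + (G D L).dist (hv z i j ⟨r - k - 1, hh⟩) (c t) ≤ r} with hU
  have hUc : ∀ i j, (T.induce (U i j)).Preconnected := fun i j => hconn _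
  have memU : ∀ i j a, (a = i ∨ a = j) → ∀ t, K t a → t ∈ U i j := by
    intro i j a ha t hta
    have h1 := hair_dist_le (c t) z i j a ha (r - k - 1) hh
    have h2 : o t + (G D L).dist (c t) (tv (ch z a)) ≤ k := hta
    show o t + (G D L).dist (hv z i j ⟨r - k - 1, hh⟩) (c t) ≤ r
    rw [dist_comm]
    omega
  have outU : ∀ i j t, t ∈ U i j → (∃ h, c t = hv z i j h) ∨ K t i ∨ K t j := by
    intro i j t ht
    by_cases hc : ∃ h, c t = hv z i j h
    · exact Or.inl hc
    · right
      have h1 := hair_dist (c t) z i j (fun h he => hc ⟨h, he⟩) ⟨r - k - 1, hh⟩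
      have h2 : o t + (G D L).dist (hv z i j ⟨r - k - 1, hh⟩) (c t) ≤ r := ht
      rw [dist_comm] at h2
      simp only at h1
      by_contra h3
      rw [not_or] at h3
      have h4 : ¬ o t + (G D L).dist (c t) (tv (ch z i)) ≤ k := h3.1
      have h5 : ¬ o t + (G D L).dist (c t) (tv (ch z j)) ≤ k := h3.2
      omega
  have hairA : ∀ i j t, (∃ h, c t = hv z i j h) → assoc z (c t) i ∧ assoc z (c t) j := by
    rintro i j t ⟨h, he⟩
    rw [he]
    exact ⟨Or.inr ⟨rfl, Or.inl rfl⟩, Or.inr ⟨rfl, Or.inr rfl⟩⟩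
  -- every triple contains a good pair
  have triple : ∀ i j l, i ≠ j → j ≠ l → i ≠ l →
      (∃ t, K t i ∧ K t j) ∨ (∃ t, K t j ∧ K t l) ∨ (∃ t, K t i ∧ K t l) := by
    intro i j l hij hjl hil
    obtain ⟨t, tA, tB, tC⟩ := helly3 hT (hUc i j) (hUc i l) (hUc j l)
      (a := τ i) (b := τ l) (c := τ j)
      (memU i j i (Or.inl rfl) _ (hKτ i)) (memU i l i (Or.inl rfl) _ (hKτ i))
      (memU i l l (Or.inr rfl) _ (hKτ l)) (memU j l l (Or.inr rfl) _ (hKτ l))
      (memU j l j (Or.inl rfl) _ (hKτ j)) (memU i j j (Or.inr rfl) _ (hKτ j))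
    have oA := outU i j t tA
    have oB := outU i l t tB
    have oC := outU j l t tC
    have no3 : ¬ (assoc z (c t) i ∧ assoc z (c t) j ∧ assoc z (c t) l) := fun h =>
      assoc_three hij hjl hil h.1 h.2.1 h.2.2
    have ai := hKa t i
    have aj := hKa t j
    have al := hKa t l
    have hA := hairA i j t
    have hB := hairA i l t
    have hC := hairA j l t
    by_cases ki : K t i
    · by_cases kj : K t j
      · exact Or.inl ⟨t, ki, kj⟩
      · by_cases kl : K t l
        · exact Or.inr (Or.inr ⟨t, ki, kl⟩)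
        · exfalso
          rcases oC with h | h | h
          · exact no3 ⟨ai ki, (hC h).1, (hC h).2⟩
          · exact kj h
          · exact kl h
    · by_cases kj : K t j
      · by_cases kl : K t l
        · exact Or.inr (Or.inl ⟨t, kj, kl⟩)
        · exfalso
          rcases oB with h | h | h
          · exact no3 ⟨(hB h).1, aj kj, (hB h).2⟩
          · exact ki h
          · exact kl h
      · exfalso
        rcases oA with h | h | h
        · rcases oC with h' | h' | h'
          · exact no3 ⟨(hA h).1, (hA h).2, (hC h').2⟩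
          · exact kj h'
          · exact no3 ⟨(hA h).1, (hA h).2, al h'⟩
        · exact ki h
        · exact kj h
  obtain ⟨i, j, l, hij, hjl, hil, ⟨t1, k1, k2⟩, ⟨t2, k3, k4⟩, ⟨t3, k5, k6⟩⟩ :=
    ramsey (fun i j => ∃ t, K t i ∧ K t j) triple
  obtain ⟨p, q, s, hpq, hqs, hps, hall⟩ := three_more i j l hij hjl hil
  have hp := hall p (by simp)
  have hq := hall q (by simp)
  have hs := hall s (by simp)
  -- t1 : i j, t2 : j l, t3 : i l
  obtain ⟨t, tA, tB, tC⟩ := helly3 hT (hUc i p) (hUc j q) (hUc l s)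
      (a := t1) (b := t2) (c := t3)
      (memU i p i (Or.inl rfl) _ k1) (memU j q j (Or.inl rfl) _ k2)
      (memU j q j (Or.inl rfl) _ k3) (memU l s l (Or.inl rfl) _ k4)
      (memU l s l (Or.inl rfl) _ k6) (memU i p i (Or.inl rfl) _ k5)
  have get : ∀ a b, t ∈ U a b → assoc z (c t) a ∨ assoc z (c t) b := by
    intro a b hab
    rcases outU a b t hab with h | h | h
    · exact Or.inl (hairA a b t h).1
    · exact Or.inl (hKa t a h)
    · exact Or.inr (hKa t b h)
  rcases get i p tA with h1 | h1 <;> rcases get j q tB with h2 | h2 <;>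
    rcases get l s tC with h3 | h3
  · exact assoc_three hij hjl hil h1 h2 h3
  · exact assoc_three hij hs.2.1.symm hs.1.symm h1 h2 h3
  · exact assoc_three hq.1.symm hq.2.2 hil h1 h2 h3
  · exact assoc_three hq.1.symm hqs hs.1.symm h1 h2 h3
  · exact assoc_three hp.2.1 hjl hp.2.2 h1 h2 h3
  · exact assoc_three hp.2.1 hs.2.1.symm hps h1 h2 h3
  · exact assoc_three hpq hq.2.2 hp.2.2 h1 h2 h3
  · exact assoc_three hpq hqs hps h1 h2 h3

/-- In `G D L` with `D ≥ r + 1` and `L + 1 ≥ r` there is no tree-decomposition in which the bag of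
`t` is the set of the vertices at distance at most `r - o t` from `c t`. -/
theorem no_disks {D L r : ℕ} (hD : r + 1 ≤ D) (hL : r ≤ L + 1) {ι : Type} {T : SimpleGraph ι}
    (hT : T.IsAcyclic) (c : ι → Vx D L) (o : ι → ℕ)
    (hconn : ∀ x, (T.induce {t | o t + (G D L).dist x (c t) ≤ r}).Preconnected)
    (hedge : ∀ u v, (G D L).Adj u v → ∃ t, o t + (G D L).dist u (c t) ≤ r ∧
      o t + (G D L).dist v (c t) ≤ r) : False := by
  have walk : ∀ n, n ≤ r → ∃ z : IV D, z.1.length = n ∧
      ∀ t, n ≤ o t + (G D L).dist (c t) (tv (up z)) := by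
    intro n
    induction n with
    | zero =>
      intro _
      exact ⟨⟨[], by simp; omega⟩, rfl, fun t => Nat.zero_le _⟩
    | succ n ih =>
      intro hn
      obtain ⟨z, hz1, hz2⟩ := ih (by omega)
      obtain ⟨i, hi⟩ := lemmaA hT c o r n hn (by omega) hconn z hz2
      have hlen : (i :: z.1).length = n + 1 := by
        rw [List.length_cons, hz1]
      refine ⟨⟨i :: z.1, by omega⟩, hlen, ?_⟩
      intro t
      exact hi t
  obtain ⟨z, hz1, hz2⟩ := walk r le_rfl
  have hcov : ∀ i, ∃ t, o t + (G D L).dist (c t) (tv (ch z i)) + 1 ≤ r := by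
    intro i
    obtain ⟨t, h3, h4⟩ := hedge _ _ (adj_ch (L := L) z i)
    have h5 := hz2 t
    have h6 := parity_dist (tv (up z)) (c t)
    have h7 := parity_dist (tv (ch z i)) (c t)
    have h8 : par (tv (ch z i) : Vx D L) = par (tv (up z) : Vx D L) + 1 := by
      simp [par, up, ch]
    refine ⟨t, ?_⟩
    rw [dist_comm] at h5 ⊢
    omega
  obtain ⟨t0, ht0⟩ := hcov 0
  obtain ⟨i, hi⟩ := lemmaA hT c o r (r - 1) (by omega) (by omega) hconn z
    (fun t => (Nat.sub_le r 1).trans (hz2 t))
  obtain ⟨t, ht⟩ := hcov i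
  have := hi t
  omega

end Pool.Agent.SB97
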