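import Pool.Agent.SB97.B
import Pool.Agent.SB97.C
import Pool.Agent.SB97.D

/-!
Two connected graphs joined by an edge: distances and decompositions. Helper for MP_3ffbec_co.
-/

set_option autoImplicit false

namespace Pool.Agent.SB97

open SimpleGraph

/-- `G` has a finite tree-decomposition in which every bag is a disk of radius at most `r`; the
radii of the bags may be different. -/
def Disks {V : Type} (G : SimpleGraph V) (r : ℕ) : Prop :=
  ∃ (ι : Type) (_ : Finite ι) (T : SimpleGraph ι) (B : ι → Set V),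
    IsTD G T B ∧ ∀ t, ∃ (v : V) (ρ : ℕ), ρ ≤ r ∧ B t = disk G v ρ

theorem Strong.disks {V : Type} {G : SimpleGraph V} {r : ℕ} (h : Strong G r) : Disks G r := by
  obtain ⟨ι, hι, T, B, h1, h2⟩ := h
  refine ⟨ι, hι, T, B, h1, fun t => ?_⟩
  obtain ⟨v, -, hv⟩ := h2 t
  exact ⟨v, r, le_rfl, hv⟩

theorem mem_disk {V : Type} {G : SimpleGraph V} (hG : G.Connected) (u v : V) (r : ℕ) :
    u ∈ disk G v r ↔ G.dist u v ≤ r := by
  show G.edist u v ≤ r ↔ _
  rw [← (hG.preconnected u v).coe_dist_eq_edist]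
  exact_mod_cast Iff.rfl

variable {V W : Type} {G : SimpleGraph V} {H : SimpleGraph W}

/-- `G` and `H` with an edge between `x₀` and `y₀`. -/
def bridge (G : SimpleGraph V) (H : SimpleGraph W) (x₀ : V) (y₀ : W) : SimpleGraph (V ⊕ W) :=
  G.sum H ⊔ SimpleGraph.edge (Sum.inl x₀) (Sum.inr y₀)

variable {x₀ : V} {y₀ : W}

theorem bridge_ll {u v : V} : (bridge G H x₀ y₀).Adj (Sum.inl u) (Sum.inl v) ↔ G.Adj u v := by
  unfold bridge
  simp [SimpleGraph.edge_adj]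

theorem bridge_rr {u v : W} : (bridge G H x₀ y₀).Adj (Sum.inr u) (Sum.inr v) ↔ H.Adj u v := by
  unfold bridge
  simp [SimpleGraph.edge_adj]

theorem bridge_lr {u : V} {v : W} :
    (bridge G H x₀ y₀).Adj (Sum.inl u) (Sum.inr v) ↔ u = x₀ ∧ v = y₀ := by
  unfold bridge
  simp [SimpleGraph.edge_adj]

theorem bridge_connected (hG : G.Connected) (hH : H.Connected) :
    (bridge G H x₀ y₀).Connected := hG.sum_sup_edge hH

theorem dist_lip' {U : Type} {K : SimpleGraph U} (hK : K.Connected) (c a b : U) (h : K.Adj a b) :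
    ((K.dist c b : ℕ) : ℤ) ≤ K.dist c a + 1 := by
  have h1 := hK.dist_triangle (u := c) (v := a) (w := b)
  have h2 : K.dist a b = 1 := dist_eq_one_iff_adj.mpr h
  rw [h2] at h1
  exact_mod_cast h1

theorem d_ll_le (hG : G.Connected) (u v : V) :
    (bridge G H x₀ y₀).dist (Sum.inl u) (Sum.inl v) ≤ G.dist u v := by
  obtain ⟨p, hp⟩ := hG.exists_walk_length_eq_dist u v
  let f : G →g bridge G H x₀ y₀ := ⟨Sum.inl, fun {a b} h => bridge_ll.2 h⟩
  rw [← hp, ← Walk.length_map f p]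
  exact dist_le _

theorem d_rr_le (hH : H.Connected) (u v : W) :
    (bridge G H x₀ y₀).dist (Sum.inr u) (Sum.inr v) ≤ H.dist u v := by
  obtain ⟨p, hp⟩ := hH.exists_walk_length_eq_dist u v
  let f : H →g bridge G H x₀ y₀ := ⟨Sum.inr, fun {a b} h => bridge_rr.2 h⟩
  rw [← hp, ← Walk.length_map f p]
  exact dist_le _

theorem low_l (hG : G.Connected) (hH : H.Connected) (u : V) (y : V ⊕ W) :
    Sum.elim (fun v => ((G.dist u v : ℕ) : ℤ))
      (fun w => ((G.dist u x₀ : ℕ) : ℤ) + 1 + H.dist y₀ w) y ≤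
        (bridge G H x₀ y₀).dist (Sum.inl u) y := by
  have h := X63.TB.lip_dist (bridge_connected (x₀ := x₀) (y₀ := y₀) hG hH)
    (Sum.elim (fun v => ((G.dist u v : ℕ) : ℤ))
      (fun w => ((G.dist u x₀ : ℕ) : ℤ) + 1 + H.dist y₀ w)) (by
      rintro (a | a) (b | b) hab
      · exact dist_lip' hG u a b (bridge_ll.1 hab)
      · obtain ⟨rfl, rfl⟩ := bridge_lr.1 hab
        simp
      · obtain ⟨rfl, rfl⟩ := bridge_lr.1 hab.symm
        simp only [Sum.elim_inl, Sum.elim_inr]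
        have : (0 : ℤ) ≤ H.dist a a := by positivity
        linarith
      · have := dist_lip' hH y₀ a b (bridge_rr.1 hab)
        simp only [Sum.elim_inr]
        linarith) (Sum.inl u) y
  simpa using h

theorem low_r (hG : G.Connected) (hH : H.Connected) (u : W) (y : V ⊕ W) :
    Sum.elim (fun v => ((H.dist u y₀ : ℕ) : ℤ) + 1 + G.dist x₀ v)
      (fun w => ((H.dist u w : ℕ) : ℤ)) y ≤
        (bridge G H x₀ y₀).dist (Sum.inr u) y := by
  have h := X63.TB.lip_dist (bridge_connected (x₀ := x₀) (y₀ := y₀) hG hH)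
    (Sum.elim (fun v => ((H.dist u y₀ : ℕ) : ℤ) + 1 + G.dist x₀ v)
      (fun w => ((H.dist u w : ℕ) : ℤ))) (by
      rintro (a | a) (b | b) hab
      · have := dist_lip' hG x₀ a b (bridge_ll.1 hab)
        simp only [Sum.elim_inl]
        linarith
      · obtain ⟨rfl, rfl⟩ := bridge_lr.1 hab
        simp only [Sum.elim_inl, Sum.elim_inr]
        have : (0 : ℤ) ≤ G.dist a a := by positivity
        linarith
      · obtain ⟨rfl, rfl⟩ := bridge_lr.1 hab.symm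
        simp
      · exact dist_lip' hH u a b (bridge_rr.1 hab)) (Sum.inr u) y
  simpa using h

theorem d_ll (hG : G.Connected) (hH : H.Connected) (u v : V) :
    (bridge G H x₀ y₀).dist (Sum.inl u) (Sum.inl v) = G.dist u v := by
  refine le_antisymm (d_ll_le hG u v) ?_
  have := low_l (x₀ := x₀) (y₀ := y₀) hG hH u (Sum.inl v)
  simp only [Sum.elim_inl] at this
  exact_mod_cast this

theorem d_rr (hG : G.Connected) (hH : H.Connected) (u v : W) :
    (bridge G H x₀ y₀).dist (Sum.inr u) (Sum.inr v) = H.dist u v := by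
  refine le_antisymm (d_rr_le hH u v) ?_
  have := low_r (x₀ := x₀) (y₀ := y₀) hG hH u (Sum.inr v)
  simp only [Sum.elim_inr] at this
  exact_mod_cast this

theorem d_lr (hG : G.Connected) (hH : H.Connected) (u : V) (w : W) :
    (bridge G H x₀ y₀).dist (Sum.inl u) (Sum.inr w) = G.dist u x₀ + 1 + H.dist y₀ w := by
  apply le_antisymm
  · have hc := bridge_connected (x₀ := x₀) (y₀ := y₀) hG hH
    have h1 := hc.dist_triangle (u := Sum.inl u) (v := Sum.inl x₀) (w := Sum.inr w)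
    have h2 := hc.dist_triangle (u := Sum.inl x₀) (v := Sum.inr y₀) (w := Sum.inr w)
    have h3 : (bridge G H x₀ y₀).dist (Sum.inl x₀) (Sum.inr y₀) = 1 :=
      dist_eq_one_iff_adj.mpr (bridge_lr.2 ⟨rfl, rfl⟩)
    have h4 := d_ll_le (H := H) (x₀ := x₀) (y₀ := y₀) hG u x₀
    have h5 := d_rr_le (G := G) (x₀ := x₀) (y₀ := y₀) hH y₀ w
    omega
  · have := low_l (x₀ := x₀) (y₀ := y₀) hG hH u (Sum.inr w)
    simp only [Sum.elim_inr] at this
    exact_mod_cast this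

theorem d_rl (hG : G.Connected) (hH : H.Connected) (u : V) (w : W) :
    (bridge G H x₀ y₀).dist (Sum.inr w) (Sum.inl u) = G.dist u x₀ + 1 + H.dist y₀ w := by
  rw [dist_comm, d_lr hG hH]

theorem IsTD.bridge_left {ι : Type} {T : SimpleGraph ι} {B : ι → Set (V ⊕ W)}
    (h : IsTD (bridge G H x₀ y₀) T B) : IsTD G T (fun t => Sum.inl ⁻¹' B t) :=
  ⟨h.isTree, fun _ => h.vertex _, fun _ _ huv => h.edge _ _ (bridge_ll.2 huv),
    fun _ => h.conn _⟩

theorem IsTD.bridge_right {ι : Type} {T : SimpleGraph ι} {B : ι → Set (V ⊕ W)}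
    (h : IsTD (bridge G H x₀ y₀) T B) : IsTD H T (fun t => Sum.inr ⁻¹' B t) :=
  ⟨h.isTree, fun _ => h.vertex _, fun _ _ huv => h.edge _ _ (bridge_rr.2 huv),
    fun _ => h.conn _⟩

/-- the tree-breadth of `H` is at most that of the joined graph -/
theorem Weak.bridge_right (hG : G.Connected) (hH : H.Connected) {r : ℕ}
    (h : Weak (bridge G H x₀ y₀) r) : Weak H r := by
  obtain ⟨ι, hι, T, B, hd, hB⟩ := h
  refine ⟨ι, hι, T, _, hd.bridge_right, fun t => ?_⟩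
  obtain ⟨v | v, hv⟩ := hB t
  · refine ⟨y₀, fun w hw => ?_⟩
    have := hv hw
    rw [mem_disk (bridge_connected hG hH), d_rl hG hH] at this
    rw [mem_disk hH, dist_comm]
    omega
  · refine ⟨v, fun w hw => ?_⟩
    have := hv hw
    rw [mem_disk (bridge_connected hG hH), d_rr hG hH] at this
    rwa [mem_disk hH]

/-- no decomposition of the joined graph into disks of small radii -/
theorem bridge_no_disks {D L r : ℕ} (hD : r + 1 ≤ D) (hL : r ≤ L + 1) (hH : H.Connected)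
    (x₀ : X63.TB.Vx D L) : ¬ Disks (bridge (X63.TB.G D L) H x₀ y₀) r := by
  rintro ⟨ι, hι, T, B, hd, hB⟩
  have hG := X63.TB.G_connected D L
  choose v ρ hρ hB using hB
  let c : ι → X63.TB.Vx D L := fun t => Sum.elim id (fun _ => x₀) (v t)
  let o : ι → ℕ := fun t => r - ρ t + Sum.elim (fun _ => 0) (fun w => 1 + H.dist y₀ w) (v t)
  have key : ∀ x t, Sum.inl x ∈ B t ↔ o t + (X63.TB.G D L).dist x (c t) ≤ r := by
    intro x t
    rw [hB t, mem_disk (bridge_connected hG hH)]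
    have h1 := hρ t
    rcases hv : v t with u | w
    · rw [d_ll hG hH]
      simp only [o, c, hv, Sum.elim_inl, id]
      omega
    · rw [d_lr hG hH]
      simp only [o, c, hv, Sum.elim_inr]
      omega
  refine no_disks hD hL hd.isTree.isAcyclic c o (fun x => ?_) (fun u v huv => ?_)
  · have := (hd.conn (Sum.inl x)).preconnected
    have e : {t | Sum.inl x ∈ B t} = {t | o t + (X63.TB.G D L).dist x (c t) ≤ r} := by
      ext t; exact key x t
    rwa [e] at this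
  · obtain ⟨t, h1, h2⟩ := hd.edge _ _ (bridge_ll.2 huv)
    exact ⟨t, (key u t).1 h1, (key v t).1 h2⟩

theorem conn_join {ι₁ ι₂ : Type} {T₁ : SimpleGraph ι₁} {T₂ : SimpleGraph ι₂} {A : Set ι₁}
    {A' : Set ι₂} {t₀ : ι₁} {s₀ : ι₂} (hA : (T₁.induce A).Preconnected)
    (hA' : (T₂.induce A').Preconnected) (h : A.Nonempty → A'.Nonempty → t₀ ∈ A ∧ s₀ ∈ A')
    {S : Set (ι₁ ⊕ ι₂)} (h1 : ∀ t, Sum.inl t ∈ S ↔ t ∈ A) (h2 : ∀ t, Sum.inr t ∈ S ↔ t ∈ A')
    (hS : S.Nonempty) :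
    ((T₁.sum T₂ ⊔ SimpleGraph.edge (Sum.inl t₀) (Sum.inr s₀)).induce S).Connected := by
  have hne : Nonempty S := hS.to_subtype
  set T := T₁.sum T₂ ⊔ SimpleGraph.edge (Sum.inl t₀) (Sum.inr s₀) with hT
  have ll : ∀ a b (ha : a ∈ A) (hb : b ∈ A),
      (T.induce S).Reachable ⟨Sum.inl a, (h1 a).2 ha⟩ ⟨Sum.inl b, (h1 b).2 hb⟩ := by
    intro a b ha hb
    let g : T₁.induce A →g T.induce S :=
      ⟨fun a => ⟨Sum.inl a.1, (h1 _).2 a.2⟩, fun {p q} hpq => Or.inl hpq⟩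
    exact (hA ⟨a, ha⟩ ⟨b, hb⟩).map g
  have rr : ∀ a b (ha : a ∈ A') (hb : b ∈ A'),
      (T.induce S).Reachable ⟨Sum.inr a, (h2 a).2 ha⟩ ⟨Sum.inr b, (h2 b).2 hb⟩ := by
    intro a b ha hb
    let g : T₂.induce A' →g T.induce S :=
      ⟨fun a => ⟨Sum.inr a.1, (h2 _).2 a.2⟩, fun {p q} hpq => Or.inl hpq⟩
    exact (hA' ⟨a, ha⟩ ⟨b, hb⟩).map g
  have lr : ∀ a b (ha : a ∈ A) (hb : b ∈ A'),
      (T.induce S).Reachable ⟨Sum.inl a, (h1 a).2 ha⟩ ⟨Sum.inr b, (h2 b).2 hb⟩ := by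
    intro a b ha hb
    obtain ⟨e1, e2⟩ := h ⟨a, ha⟩ ⟨b, hb⟩
    have e3 : (T.induce S).Adj ⟨Sum.inl t₀, (h1 _).2 e1⟩ ⟨Sum.inr s₀, (h2 _).2 e2⟩ := by
      show T.Adj (Sum.inl t₀) (Sum.inr s₀)
      rw [hT]
      right
      simp [SimpleGraph.edge_adj]
    exact (ll a t₀ ha e1).trans (e3.reachable.trans (rr s₀ b e2 hb))
  refine SimpleGraph.Connected.mk ?_
  rintro ⟨a | a, ha⟩ ⟨b | b, hb⟩
  · exact ll a b ((h1 a).1 ha) ((h1 b).1 hb)
  · exact lr a b ((h1 a).1 ha) ((h2 b).1 hb)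
  · exact (lr b a ((h1 b).1 hb) ((h2 a).1 ha)).symm
  · exact rr a b ((h2 a).1 ha) ((h2 b).1 hb)

theorem pre_empty {ι : Type} {T : SimpleGraph ι} {A : Set ι} (hA : ∀ a, a ∉ A) :
    (T.induce A).Preconnected := by
  rintro ⟨a, ha⟩
  exact absurd ha (hA a)

/-- The joined graph has a strong decomposition of radius `b`. -/
theorem strong_bridge (hG : G.Connected) (hH : H.Connected) {ι₁ ι₂ : Type} [Finite ι₁]
    [Finite ι₂] {T₁ : SimpleGraph ι₁} {T₂ : SimpleGraph ι₂} (hT₁ : T₁.IsTree) (hT₂ : T₂.IsTree)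
    (c₁ : ι₁ → V) (c₂ : ι₂ → W) (t₀ : ι₁) (s₀ : ι₂) {b : ℕ} (hb : 1 ≤ b)
    (e1 : c₁ t₀ = x₀) (e2 : c₂ s₀ = y₀)
    (L1 : ∀ x, (T₁.induce {t | G.dist x (c₁ t) ≤ b}).Connected)
    (L2 : ∀ m, (T₁.induce {t | m + G.dist x₀ (c₁ t) ≤ b}).Preconnected)
    (L3 : ∀ u v, G.Adj u v → ∃ t, G.dist u (c₁ t) ≤ b ∧ G.dist v (c₁ t) ≤ b)
    (R1 : ∀ x, (T₂.induce {t | H.dist x (c₂ t) ≤ b}).Connected)
    (R2 : ∀ m, (T₂.induce {t | m + H.dist y₀ (c₂ t) ≤ b}).Preconnected)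
    (R3 : ∀ u v, H.Adj u v → ∃ t, H.dist u (c₂ t) ≤ b ∧ H.dist v (c₂ t) ≤ b) :
    Strong (bridge G H x₀ y₀) b := by
  have hX := bridge_connected (x₀ := x₀) (y₀ := y₀) hG hH
  let c : ι₁ ⊕ ι₂ → V ⊕ W := Sum.elim (fun t => Sum.inl (c₁ t)) (fun t => Sum.inr (c₂ t))
  have z1 : G.dist x₀ (c₁ t₀) = 0 := by rw [e1]; simp
  have z2 : H.dist y₀ (c₂ s₀) = 0 := by rw [e2]; simp
  refine ⟨ι₁ ⊕ ι₂, inferInstance, _, fun t => disk (bridge G H x₀ y₀) (c t) b,
    ⟨isTree_join hT₁ hT₂ t₀ s₀, ?_, ?_, ?_⟩, fun t => ⟨c t, ?_, rfl⟩⟩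
  · rintro (x | x)
    · obtain ⟨t, ht⟩ := (L1 x).nonempty
      refine ⟨Sum.inl t, ?_⟩
      rw [mem_disk hX]
      show (bridge G H x₀ y₀).dist (Sum.inl x) (Sum.inl (c₁ t)) ≤ b
      rw [d_ll hG hH]
      exact ht
    · obtain ⟨t, ht⟩ := (R1 x).nonempty
      refine ⟨Sum.inr t, ?_⟩
      rw [mem_disk hX]
      show (bridge G H x₀ y₀).dist (Sum.inr x) (Sum.inr (c₂ t)) ≤ b
      rw [d_rr hG hH]
      exact ht
  · have cross : ∃ t, Sum.inl x₀ ∈ disk (bridge G H x₀ y₀) (c t) b ∧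
        Sum.inr y₀ ∈ disk (bridge G H x₀ y₀) (c t) b := by
      refine ⟨Sum.inl t₀, ?_, ?_⟩
      · rw [mem_disk hX]
        show (bridge G H x₀ y₀).dist (Sum.inl x₀) (Sum.inl (c₁ t₀)) ≤ b
        rw [d_ll hG hH]
        omega
      · rw [mem_disk hX]
        show (bridge G H x₀ y₀).dist (Sum.inr y₀) (Sum.inl (c₁ t₀)) ≤ b
        rw [d_rl hG hH, e1]
        simp
        exact hb
    rintro (u | u) (v | v) huv
    · obtain ⟨t, h1, h2⟩ := L3 u v (bridge_ll.1 huv)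
      refine ⟨Sum.inl t, ?_, ?_⟩
      · rw [mem_disk hX]
        show (bridge G H x₀ y₀).dist (Sum.inl u) (Sum.inl (c₁ t)) ≤ b
        rwa [d_ll hG hH]
      · rw [mem_disk hX]
        show (bridge G H x₀ y₀).dist (Sum.inl v) (Sum.inl (c₁ t)) ≤ b
        rwa [d_ll hG hH]
    · obtain ⟨rfl, rfl⟩ := bridge_lr.1 huv
      exact cross
    · obtain ⟨rfl, rfl⟩ := bridge_lr.1 huv.symm
      obtain ⟨t, h1, h2⟩ := cross
      exact ⟨t, h2, h1⟩
    · obtain ⟨t, h1, h2⟩ := R3 u v (bridge_rr.1 huv)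
      refine ⟨Sum.inr t, ?_, ?_⟩
      · rw [mem_disk hX]
        show (bridge G H x₀ y₀).dist (Sum.inr u) (Sum.inr (c₂ t)) ≤ b
        rwa [d_rr hG hH]
      · rw [mem_disk hX]
        show (bridge G H x₀ y₀).dist (Sum.inr v) (Sum.inr (c₂ t)) ≤ b
        rwa [d_rr hG hH]
  · rintro (x | x)
    · refine conn_join (A := {t | G.dist x (c₁ t) ≤ b})
        (A' := {t | (G.dist x x₀ + 1) + H.dist y₀ (c₂ t) ≤ b}) (L1 x).preconnected
        (R2 (G.dist x x₀ + 1)) ?_ ?_ ?_ ?_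
      · rintro - ⟨s, hs⟩
        have hs' : (G.dist x x₀ + 1) + H.dist y₀ (c₂ s) ≤ b := hs
        refine ⟨?_, ?_⟩
        · show G.dist x (c₁ t₀) ≤ b
          rw [e1]; omega
        · show (G.dist x x₀ + 1) + H.dist y₀ (c₂ s₀) ≤ b
          omega
      · intro t
        show Sum.inl x ∈ disk (bridge G H x₀ y₀) (Sum.inl (c₁ t)) b ↔ _
        rw [mem_disk hX, d_ll hG hH]
        rfl
      · intro t
        show Sum.inl x ∈ disk (bridge G H x₀ y₀) (Sum.inr (c₂ t)) b ↔ _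
        rw [mem_disk hX, d_lr hG hH]
        rfl
      · obtain ⟨t, ht⟩ := (L1 x).nonempty
        refine ⟨Sum.inl t, ?_⟩
        show Sum.inl x ∈ disk (bridge G H x₀ y₀) (Sum.inl (c₁ t)) b
        rw [mem_disk hX, d_ll hG hH]
        exact ht
    · refine conn_join (A := {t | (H.dist y₀ x + 1) + G.dist x₀ (c₁ t) ≤ b})
        (A' := {t | H.dist x (c₂ t) ≤ b}) (L2 (H.dist y₀ x + 1)) (R1 x).preconnected
        ?_ ?_ ?_ ?_
      · rintro ⟨s, hs⟩ -
        have hs' : (H.dist y₀ x + 1) + G.dist x₀ (c₁ s) ≤ b := hs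
        refine ⟨?_, ?_⟩
        · show (H.dist y₀ x + 1) + G.dist x₀ (c₁ t₀) ≤ b
          omega
        · show H.dist x (c₂ s₀) ≤ b
          rw [e2, dist_comm]; omega
      · intro t
        show Sum.inr x ∈ disk (bridge G H x₀ y₀) (Sum.inl (c₁ t)) b ↔ _
        rw [mem_disk hX, d_rl hG hH]
        show G.dist (c₁ t) x₀ + 1 + H.dist y₀ x ≤ b ↔
          (H.dist y₀ x + 1) + G.dist x₀ (c₁ t) ≤ b
        rw [dist_comm (u := c₁ t)]
        omega
      · intro t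
        show Sum.inr x ∈ disk (bridge G H x₀ y₀) (Sum.inr (c₂ t)) b ↔ _
        rw [mem_disk hX, d_rr hG hH]
        rfl
      · obtain ⟨t, ht⟩ := (R1 x).nonempty
        refine ⟨Sum.inr t, ?_⟩
        show Sum.inr x ∈ disk (bridge G H x₀ y₀) (Sum.inr (c₂ t)) b
        rw [mem_disk hX, d_rr hG hH]
        exact ht
  · show (bridge G H x₀ y₀).edist (c t) (c t) ≤ b
    simp

end Pool.Agent.SB97
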