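import Pool.Agent.SB97.E

/-!
The graph `X63.TB.G D L` of the library: its disks of radius `L + 2` around the vertices of the tree
form a tree-decomposition. Helper for MP_3ffbec_co.
-/

set_option autoImplicit false

namespace Pool.Agent.SB97

open SimpleGraph X63.TB

variable {D L : ℕ}

/-- the parent of a vertex of the tree -/
def parT (D : ℕ) (w : TV D) : TV D := ⟨w.1.tail, by
  have := w.2
  rw [List.length_tail]
  omega⟩

/-- the root -/
def rt (D : ℕ) : TV D := ⟨[], by simp⟩

theorem treeT (D : ℕ) : (parGraph (parT D)).IsTree := by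
  apply parGraph_isTree (parT D) (fun w => w.1.length) (rt D)
  · rfl
  · rintro ⟨l, hl⟩ hne
    cases l with
    | nil => exact absurd rfl hne
    | cons a l =>
      show l.length < (a :: l).length
      simp

/-- the depth -/
def dep : Vx D L → ℤ
  | Sum.inl w => w.1.length
  | Sum.inr (z, _, _, h) => z.1.length + 2 + h.val

/-- the anchor of a vertex -/
def anc : Vx D L → TV D
  | Sum.inl w => w
  | Sum.inr (z, _, _, _) => up z

theorem dep_low (x : Vx D L) (t : TV D) :
    dep x - t.1.length ≤ (G D L).dist x (tv t) := by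
  have h := lip_dist (G_connected D L) (dep : Vx D L → ℤ) (lip_of dep
    (fun z a => by simp only [dep, up, ch, List.length_cons]; push_cast; omega)
    (fun z i j a _ h hh => by
      simp only [dep, ch, List.length_cons]; push_cast; omega)
    (fun z i j h h' hh => by simp only [dep]; omega)) (tv t) x
  rw [dist_comm] at h
  have e : dep (tv t : Vx D L) = t.1.length := rfl
  rw [e] at h
  linarith

theorem anc_dist (s : TV D) : ∀ (l : List (Fin 6)) (hl : l.length ≤ D), s.1 <:+ l →
    (((G D L).dist (tv ⟨l, hl⟩) (tv s) : ℕ) : ℤ) ≤ l.length - s.1.length := by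
  intro l
  induction l with
  | nil =>
    intro hl hs
    have h : s.1 = [] := List.suffix_nil.1 hs
    have h' : s = ⟨[], hl⟩ := Subtype.ext h
    rw [h']
    simp
  | cons a l ih =>
    intro hl hs
    rcases List.suffix_cons_iff.1 hs with h | h
    · have h' : s = ⟨a :: l, hl⟩ := Subtype.ext h
      rw [h']
      simp
    · have hl' : l.length < D := by simpa using hl
      have h1 := ih hl'.le h
      have h2 : (G D L).Adj (tv ⟨l, hl'.le⟩) (tv ⟨a :: l, hl⟩) := adj_ch (⟨l, hl'⟩ : IV D) a
      have h3 := dist_lip (tv s) _ _ h2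
      rw [dist_comm, dist_comm (u := tv s)] at h3
      rw [List.length_cons]
      push_cast
      have h4 : (((G D L).dist (tv ⟨l, hl'.le⟩) (tv s) : ℕ) : ℤ) ≤ l.length - s.1.length := h1
      rw [dist_comm] at h4 ⊢
      rw [dist_comm] at h3
      linarith

theorem dep_anc (x : Vx D L) :
    (((G D L).dist x (tv (anc x)) : ℕ) : ℤ) ≤ dep x - (anc x).1.length := by
  rcases x with w | ⟨z, i, j, h⟩
  · simp [dep, anc]
  · have h1 := hair_dist_le (L := L) (tv (up z)) z i j i (Or.inl rfl) h.val h.isLt
    have h2 : (G D L).dist (tv (up z)) (tv (ch z i)) = 1 :=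
      dist_eq_one_iff_adj.mpr (adj_ch z i)
    rw [h2] at h1
    have h3 : (G D L).dist (hv z i j h) (tv (up z)) ≤ 1 + 1 + h.val := by
      rw [dist_comm]; exact h1
    simp only [dep, anc, up]
    have h4 : (((G D L).dist (hv z i j h) (tv (up z)) : ℕ) : ℤ) ≤ 1 + 1 + h.val := by
      exact_mod_cast h3
    simp only [up] at h4
    linarith

theorem dep_up (x : Vx D L) (s : TV D) (hs : s.1 <:+ (anc x).1) :
    (((G D L).dist x (tv s) : ℕ) : ℤ) ≤ dep x - s.1.length := by
  have h1 := dep_anc x
  have h2 := anc_dist (L := L) s (anc x).1 (anc x).2 hs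
  have h3 := (G_connected D L).dist_triangle (u := x) (v := tv (anc x)) (w := tv s)
  have h4 : (((G D L).dist x (tv s) : ℕ) : ℤ) ≤
      (G D L).dist x (tv (anc x)) + (G D L).dist (tv (anc x)) (tv s) := by exact_mod_cast h3
  have h5 : (((G D L).dist (tv (anc x)) (tv s) : ℕ) : ℤ) ≤ (anc x).1.length - s.1.length := h2
  linarith

theorem ball_conn (x : Vx D L) (ρ : ℕ) (hρ : (G D L).dist x (tv (anc x)) ≤ ρ) :
    ((parGraph (parT D)).induce {t | (G D L).dist x (tv t) ≤ ρ}).Connected := by
  have down : ∀ n : ℕ, ∀ t : TV D, ∀ ht : (G D L).dist x (tv t) ≤ ρ, t.1 <:+ (anc x).1 →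
      t.1.length + n = (anc x).1.length →
      ((parGraph (parT D)).induce {t | (G D L).dist x (tv t) ≤ ρ}).Reachable
        ⟨t, ht⟩ ⟨anc x, hρ⟩ := by
    intro n
    induction n with
    | zero =>
      intro t ht hs hn
      have h : t.1 = (anc x).1 := hs.eq_of_length hn
      have h' : t = anc x := Subtype.ext h
      subst h'
      exact Reachable.refl _
    | succ n ih =>
      intro t ht hs hn
      obtain ⟨l, hl⟩ := hs
      rcases List.eq_nil_or_concat l with rfl | ⟨l', a, rfl⟩
      · rw [List.nil_append] at hl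
        rw [hl] at hn
        omega
      · have hsuf : (a :: t.1) <:+ (anc x).1 := ⟨l', by rw [← hl]; simp⟩
        have hlen : (a :: t.1).length ≤ D := hsuf.length_le.trans (anc x).2
        have h1 := dep_up x ⟨a :: t.1, hlen⟩ hsuf
        have h2 := dep_low x t
        have hs2 : (G D L).dist x (tv ⟨a :: t.1, hlen⟩) ≤ ρ := by
          simp only [List.length_cons] at h1
          push_cast at h1
          omega
        have hadj : ((parGraph (parT D)).induce {t | (G D L).dist x (tv t) ≤ ρ}).Adj
            ⟨t, ht⟩ ⟨⟨a :: t.1, hlen⟩, hs2⟩ := by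
          refine ⟨fun h => ?_, Or.inr ?_⟩
          · have h' : t.1 = a :: t.1 := congrArg Subtype.val h
            have := congrArg List.length h'
            simp at this
          · exact Subtype.ext rfl
        refine hadj.reachable.trans (ih _ hs2 hsuf ?_)
        show (a :: t.1).length + n = _
        rw [List.length_cons]
        omega
  have up' : ∀ n : ℕ, ∀ t : TV D, t.1.length ≤ n → ∀ ht : (G D L).dist x (tv t) ≤ ρ,
      ((parGraph (parT D)).induce {t | (G D L).dist x (tv t) ≤ ρ}).Reachable
        ⟨t, ht⟩ ⟨anc x, hρ⟩ := by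
    intro n
    induction n with
    | zero =>
      intro t hn ht
      have h0 : t.1 = [] := List.length_eq_zero_iff.1 (by omega)
      have hs : t.1 <:+ (anc x).1 := by rw [h0]; exact List.nil_suffix
      exact down ((anc x).1.length - t.1.length) t ht hs (by have := hs.length_le; omega)
    | succ n ih =>
      intro t hn ht
      by_cases hs : t.1 <:+ (anc x).1
      · exact down ((anc x).1.length - t.1.length) t ht hs (by have := hs.length_le; omega)
      · obtain ⟨l, hl⟩ := t
        cases l with
        | nil => exact absurd List.nil_suffix hs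
        | cons i l =>
          have hl' : l.length < D := by simpa using hl
          have hch : (⟨i :: l, hl⟩ : TV D) = ch (⟨l, hl'⟩ : IV D) i := rfl
          have hpar : (G D L).dist x (tv (up (⟨l, hl'⟩ : IV D))) ≤ ρ := by
            by_cases h2 : hairW (⟨l, hl'⟩ : IV D) i x
            · rcases x with w | ⟨z, p, q, h⟩
              · exact h2.elim
              · obtain ⟨rfl, -⟩ := h2
                exact hρ
            · have h1 : ¬ inBr (⟨l, hl'⟩ : IV D) i x := by
                intro h1
                apply hs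
                rcases x with w | ⟨z, p, q, h⟩
                · exact h1
                · exact h1
              have h3 := cls x (⟨l, hl'⟩ : IV D) i h1 h2
              have h4 : (G D L).dist x (tv (ch (⟨l, hl'⟩ : IV D) i)) ≤ ρ := ht
              omega
          have hadj : ((parGraph (parT D)).induce {t | (G D L).dist x (tv t) ≤ ρ}).Adj
              ⟨⟨i :: l, hl⟩, ht⟩ ⟨up (⟨l, hl'⟩ : IV D), hpar⟩ := by
            refine ⟨fun h => ?_, Or.inl ?_⟩
            · have h' : i :: l = l := congrArg Subtype.val h
              have := congrArg List.length h'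
              simp at this
            · exact Subtype.ext rfl
          refine hadj.reachable.trans (ih _ ?_ hpar)
          show l.length ≤ n
          simpa using hn
  have hne : Nonempty {t | (G D L).dist x (tv t) ≤ ρ} := ⟨⟨anc x, hρ⟩⟩
  refine SimpleGraph.Connected.mk ?_
  rintro ⟨a, ha⟩ ⟨b, hb⟩
  exact (up' _ a le_rfl ha).trans (up' _ b le_rfl hb).symm

theorem L1 (x : Vx D L) :
    ((parGraph (parT D)).induce {t | (G D L).dist x (tv t) ≤ L + 2}).Connected := by
  apply ball_conn
  have h := dep_anc x
  rcases x with w | ⟨z, i, j, h'⟩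
  · simp [anc]
  · have := h'.isLt
    simp only [dep, anc, up] at h ⊢
    omega

theorem L2 (b m : ℕ) :
    ((parGraph (parT D)).induce {t | m + (G D L).dist (tv (rt D)) (tv t) ≤ b}).Preconnected := by
  by_cases h : m ≤ b
  · have h1 := ball_conn (L := L) (tv (rt D)) (b - m) (by simp [anc])
    have e : {t : TV D | m + (G D L).dist (tv (rt D)) (tv t) ≤ b} =
        {t : TV D | (G D L).dist (tv (rt D)) (tv t) ≤ b - m} := by
      ext t
      show m + _ ≤ b ↔ _ ≤ b - m
      omega
    rw [e]
    exact h1.preconnected
  · apply pre_empty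
    intro a ha
    have ha' : m + (G D L).dist (tv (rt D)) (tv a) ≤ b := ha
    omega

theorem L3 (u v : Vx D L) (huv : (G D L).Adj u v) :
    ∃ t : TV D, (G D L).dist u (tv t) ≤ L + 2 ∧ (G D L).dist v (tv t) ≤ L + 2 := by
  have key : ∀ u v, R D L u v →
      ∃ t : TV D, (G D L).dist u (tv t) ≤ L + 2 ∧ (G D L).dist v (tv t) ≤ L + 2 := by
    rintro (u | ⟨z, i, j, h⟩) (w | ⟨z', i', j', h'⟩) hab
    · have h1 : (G D L).dist (tv u) (tv w) = 1 :=
        dist_eq_one_iff_adj.mpr (Or.inl hab)
      refine ⟨w, ?_, ?_⟩
      · show (G D L).dist (tv u) (tv w) ≤ L + 2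
        omega
      · show (G D L).dist (tv w) (tv w) ≤ L + 2
        simp
    · exact hab.elim
    · have h1 : (G D L).dist (hv z i j h) (tv w) = 1 :=
        dist_eq_one_iff_adj.mpr (Or.inl hab)
      refine ⟨w, ?_, ?_⟩
      · show (G D L).dist (hv z i j h) (tv w) ≤ L + 2
        omega
      · show (G D L).dist (tv w) (tv w) ≤ L + 2
        simp
    · obtain ⟨rfl, rfl, rfl, hh⟩ := hab
      have h1 := hair_dist_le (L := L) (tv (ch z i)) z i j i (Or.inl rfl) h.val h.isLt
      have h2 := hair_dist_le (L := L) (tv (ch z i)) z i j i (Or.inl rfl) h'.val h'.isLt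
      have e1 : (G D L).dist (tv (ch z i)) (tv (ch z i)) = 0 := by simp
      rw [e1] at h1 h2
      have := h.isLt
      have := h'.isLt
      refine ⟨ch z i, ?_, ?_⟩
      · rw [dist_comm]
        exact h1.trans (by omega)
      · rw [dist_comm]
        exact h2.trans (by omega)
  rcases huv with h | h
  · exact key u v h
  · obtain ⟨t, h1, h2⟩ := key v u h
    exact ⟨t, h2, h1⟩

end Pool.Agent.SB97
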