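import Pool.Agent.SB97.F
import Pool.Graph.R_pool_sql_team_seeded_64922ed1.Results.MP_3ffbec_co.StrongUnbounded

/-!
The tree-breadth of two graphs joined by an edge, and the graphs with tree-breadth `a` and strong
tree-breadth `b`. Helper for MP_3ffbec_co.
-/

set_option autoImplicit false

namespace Pool.Agent.SB97

open SimpleGraph

variable {V W : Type} {G : SimpleGraph V} {H : SimpleGraph W} {x₀ : V} {y₀ : W}

theorem weak_bridge (hG : G.Connected) (hH : H.Connected) {a : ℕ} (ha : 1 ≤ a) (h1 : Weak G a)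
    (h2 : Weak H a) : Weak (bridge G H x₀ y₀) a := by
  obtain ⟨ι₁, _, T₁, B₁, d₁, e₁⟩ := h1
  obtain ⟨ι₂, _, T₂, B₂, d₂, e₂⟩ := h2
  obtain ⟨t₀, ht₀⟩ := d₁.vertex x₀
  obtain ⟨s₀, hs₀⟩ := d₂.vertex y₀
  have hX := bridge_connected (x₀ := x₀) (y₀ := y₀) hG hH
  have hU : (⊥ : SimpleGraph Unit).IsTree := IsTree.of_subsingleton
  let B : (ι₁ ⊕ Unit) ⊕ ι₂ → Set (V ⊕ W) := Sum.elim
    (Sum.elim (fun t => Sum.inl '' B₁ t) (fun _ => {Sum.inl x₀, Sum.inr y₀}))
    (fun s => Sum.inr '' B₂ s)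
  refine ⟨(ι₁ ⊕ Unit) ⊕ ι₂, inferInstance, _, B,
    ⟨isTree_join (isTree_join d₁.isTree hU t₀ ()) d₂.isTree (Sum.inr ()) s₀, ?_, ?_, ?_⟩, ?_⟩
  · rintro (v | v)
    · obtain ⟨t, ht⟩ := d₁.vertex v
      exact ⟨Sum.inl (Sum.inl t), v, ht, rfl⟩
    · obtain ⟨t, ht⟩ := d₂.vertex v
      exact ⟨Sum.inr t, v, ht, rfl⟩
  · rintro (u | u) (v | v) huv
    · obtain ⟨t, h1, h2⟩ := d₁.edge u v (bridge_ll.1 huv)
      exact ⟨Sum.inl (Sum.inl t), ⟨u, h1, rfl⟩, ⟨v, h2, rfl⟩⟩
    · obtain ⟨rfl, rfl⟩ := bridge_lr.1 huv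
      exact ⟨Sum.inl (Sum.inr ()), Or.inl rfl, Or.inr rfl⟩
    · obtain ⟨rfl, rfl⟩ := bridge_lr.1 huv.symm
      exact ⟨Sum.inl (Sum.inr ()), Or.inr rfl, Or.inl rfl⟩
    · obtain ⟨t, h1, h2⟩ := d₂.edge u v (bridge_rr.1 huv)
      exact ⟨Sum.inr t, ⟨u, h1, rfl⟩, ⟨v, h2, rfl⟩⟩
  · rintro (v | v)
    · have inner : ((T₁.sum (⊥ : SimpleGraph Unit) ⊔
          SimpleGraph.edge (Sum.inl t₀) (Sum.inr ())).induce
          {t : ι₁ ⊕ Unit | Sum.inl v ∈ B (Sum.inl t)}).Connected := by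
        refine conn_join (A := {t | v ∈ B₁ t}) (A' := {_t | v = x₀}) (d₁.conn v).preconnected
          ?_ ?_ ?_ ?_ ?_
        · rintro ⟨a, ha⟩ ⟨b, hb⟩
          exact Reachable.refl _
        · rintro - ⟨_, hs⟩
          have hs' : v = x₀ := hs
          exact ⟨by rw [hs']; exact ht₀, hs'⟩
        · intro t
          constructor
          · rintro ⟨w, hw, hw2⟩
            cases hw2
            exact hw
          · intro ht
            exact ⟨v, ht, rfl⟩
        · intro t
          constructor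
          · rintro (h | h)
            · exact Sum.inl_injective h
            · exact absurd h (by simp)
          · intro h
            exact Or.inl (congrArg Sum.inl h)
        · obtain ⟨t, ht⟩ := d₁.vertex v
          exact ⟨Sum.inl t, v, ht, rfl⟩
      refine conn_join (A := {t : ι₁ ⊕ Unit | Sum.inl v ∈ B (Sum.inl t)}) (A' := ∅)
        inner.preconnected (pre_empty (by simp)) ?_ ?_ ?_ ?_
      · rintro - ⟨_, hs⟩
        exact hs.elim
      · intro t
        exact Iff.rfl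
      · intro t
        constructor
        · rintro ⟨w, hw, hw2⟩
          cases hw2
        · intro h
          exact h.elim
      · obtain ⟨t, ht⟩ := d₁.vertex v
        exact ⟨Sum.inl (Sum.inl t), v, ht, rfl⟩
    · refine conn_join (A := {t : ι₁ ⊕ Unit | Sum.inr v ∈ B (Sum.inl t)}) (A' := {s | v ∈ B₂ s})
        ?_ (d₂.conn v).preconnected ?_ ?_ ?_ ?_
      · have only : ∀ t : ι₁ ⊕ Unit, Sum.inr v ∈ B (Sum.inl t) → t = Sum.inr () := by
          rintro (t | t) ht
          · obtain ⟨w, hw, hw2⟩ := ht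
            cases hw2
          · rfl
        rintro ⟨a, ha⟩ ⟨b, hb⟩
        have e1 := only a ha
        have e2 := only b hb
        subst e1 e2
        exact Reachable.refl _
      · rintro ⟨t, ht⟩ -
        have hv : v = y₀ := by
          rcases t with t | t
          · obtain ⟨w, hw, hw2⟩ := ht
            cases hw2
          · rcases ht with h | h
            · exact absurd h (by simp)
            · exact Sum.inr_injective h
        refine ⟨?_, by rw [hv]; exact hs₀⟩
        rw [hv]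
        exact Or.inr rfl
      · intro t
        exact Iff.rfl
      · intro t
        constructor
        · rintro ⟨w, hw, hw2⟩
          cases hw2
          exact hw
        · intro ht
          exact ⟨v, ht, rfl⟩
      · obtain ⟨t, ht⟩ := d₂.vertex v
        exact ⟨Sum.inr t, v, ht, rfl⟩
  · rintro ((t | t) | t)
    · obtain ⟨v, hv⟩ := e₁ t
      refine ⟨Sum.inl v, ?_⟩
      rintro _ ⟨w, hw, rfl⟩
      rw [mem_disk hX, d_ll hG hH]
      exact (mem_disk hG _ _ _).1 (hv hw)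
    · refine ⟨Sum.inl x₀, ?_⟩
      rintro w (rfl | rfl)
      · rw [mem_disk hX]
        simp
      · rw [mem_disk hX, d_rl hG hH]
        simpa using ha
    · obtain ⟨v, hv⟩ := e₂ t
      refine ⟨Sum.inr v, ?_⟩
      rintro _ ⟨w, hw, rfl⟩
      rw [mem_disk hX, d_rr hG hH]
      exact (mem_disk hH _ _ _).1 (hv hw)

theorem Weak.mono {r s : ℕ} (hrs : r ≤ s) (h : Weak G r) : Weak G s := by
  obtain ⟨ι, hι, T, B, hd, hB⟩ := h
  refine ⟨ι, hι, T, B, hd, fun t => ?_⟩
  obtain ⟨v, hv⟩ := hB t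
  refine ⟨v, hv.trans (fun u hu => ?_)⟩
  have hu' : G.edist u v ≤ r := hu
  exact hu'.trans (by exact_mod_cast hrs)

theorem weak_G (D L : ℕ) : Weak (X63.TB.G D L) 1 := by
  have hd := X63.TB.bag_decomp D L
  refine ⟨_, inferInstance, _, X63.TB.bag D L, ⟨hd.isTree, hd.vertex, hd.edge, hd.conn⟩,
    fun t => ⟨t, fun u hu => ?_⟩⟩
  rw [mem_disk (X63.TB.G_connected D L)]
  exact X63.TB.bag_disk D L t hu

/-- The graph: `X63.TB.G b (b - 2)` with an edge from its root to a cycle with `4 a` vertices. -/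
def X (a b : ℕ) : SimpleGraph (X63.TB.Vx b (b - 2) ⊕ ZMod (4 * a)) :=
  bridge (X63.TB.G b (b - 2)) (cyc (4 * a)) (X63.TB.tv (rt b)) 0

theorem X_connected {a b : ℕ} (ha : 1 ≤ a) : (X a b).Connected :=
  bridge_connected (X63.TB.G_connected _ _) (cyc_connected a ha)

theorem X_weak {a b : ℕ} (ha : 1 ≤ a) : IsLeast {r | Weak (X a b) r} a := by
  have hG := X63.TB.G_connected b (b - 2)
  have hH := cyc_connected a ha
  refine ⟨weak_bridge hG hH ha ((weak_G _ _).mono ha) (cyc_strong ha le_rfl).weak, ?_⟩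
  intro r hr
  by_contra hlt
  exact cyc_not_weak (not_le.1 hlt) (Weak.bridge_right hG hH hr)

theorem X_strong {a b : ℕ} (ha : 1 ≤ a) (hab : a ≤ b) (hb : 2 ≤ b) : Strong (X a b) b := by
  have hG := X63.TB.G_connected b (b - 2)
  have hH := cyc_connected a ha
  have hb2 : b - 2 + 2 = b := by omega
  have hmem : ∀ x t, x ∈ disk (cyc (4 * a)) (cc a t) b ↔ (cyc (4 * a)).dist x (cc a t) ≤ b :=
    fun x t => mem_disk hH _ _ _
  refine strong_bridge hG hH (treeT b) bool_isTree (fun t => X63.TB.tv t) (cc a) (rt b) false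
    (by omega) rfl rfl ?_ ?_ ?_ ?_ ?_ ?_
  · intro x
    have h := L1 x
    rwa [hb2] at h
  · exact fun m => L2 b m
  · intro u v huv
    have h := L3 u v huv
    rwa [hb2] at h
  · intro x
    obtain ⟨t, ht, -⟩ := cyc_edge ha hab x
    exact top_induce_connected ⟨t, (hmem x t).1 ht⟩
  · intro m
    rcases Set.eq_empty_or_nonempty {t | m + (cyc (4 * a)).dist 0 (cc a t) ≤ b} with h | h
    · rw [h]
      exact pre_empty (by simp)
    · exact (top_induce_connected h).preconnected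
  · intro u v huv
    obtain ⟨t, h1, h2⟩ := cyc_adj_edge ha hab huv
    exact ⟨t, (hmem u t).1 h1, (hmem v t).1 h2⟩

theorem X_not_disks {a b r : ℕ} (ha : 1 ≤ a) (hr : r < b) (hb : 2 ≤ b) : ¬ Disks (X a b) r :=
  bridge_no_disks (by omega) (by omega) (cyc_connected a ha) _

theorem Disks.weak {r : ℕ} (h : Disks G r) : Weak G r := by
  obtain ⟨ι, hι, T, B, hd, hB⟩ := h
  refine ⟨ι, hι, T, B, hd, fun t => ?_⟩
  obtain ⟨v, ρ, hρ, hv⟩ := hB t
  refine ⟨v, ?_⟩
  rw [hv]
  intro u hu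
  have hu' : G.edist u v ≤ ρ := hu
  exact hu'.trans (by exact_mod_cast hρ)

theorem all_pairs (a b : ℕ) (ha : 1 ≤ a) (hab : a ≤ b) :
    ∃ (V : Type) (_ : Finite V) (G : SimpleGraph V), G.Connected ∧
      IsLeast {r | Weak G r} a ∧ IsLeast {r | Strong G r} b ∧ IsLeast {r | Disks G r} b := by
  have : NeZero (4 * a) := ⟨by omega⟩
  rcases Nat.lt_or_ge b 2 with h | hb
  · have hb1 : b = a := by omega
    subst hb1
    have hs := cyc_strong ha le_rfl
    have low : ∀ r, Weak (cyc (4 * b)) r → b ≤ r := by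
      intro r hr
      by_contra hlt
      exact cyc_not_weak (not_le.1 hlt) hr
    exact ⟨ZMod (4 * b), inferInstance, cyc (4 * b), cyc_connected b ha,
      ⟨hs.weak, low⟩, ⟨hs, fun r hr => low r (Strong.weak hr)⟩,
      ⟨hs.disks, fun r hr => low r (Disks.weak hr)⟩⟩
  · have hs := X_strong ha hab hb
    have low : ∀ r, Disks (X a b) r → b ≤ r := by
      intro r hr
      by_contra hlt
      exact X_not_disks ha (not_le.1 hlt) hb hr
    exact ⟨_, inferInstance, X a b, X_connected ha, X_weak ha,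
      ⟨hs, fun r hr => low r (Strong.disks hr)⟩, ⟨hs.disks, low⟩⟩

end Pool.Agent.SB97
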